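import Pool.Agent.P.MP_f511bc_an.Nb.Defs

/-! Crude bounds for the volume of a ball of radius `√n`. -/

open Finset Module MeasureTheory

namespace Pool.Agent.P.MP_f511bc_an.Nb

variable {W : Type*} [NormedAddCommGroup W] [InnerProductSpace ℝ W] [FiniteDimensional ℝ W]
  [MeasurableSpace W] [BorelSpace W]

theorem ball_le {n : ℕ} (h : finrank ℝ W ≤ n) :
    volume (Metric.closedBall (0 : W) (√n)) ≤ ENNReal.ofReal (Real.exp (2 * n)) := by
  have hG := GaussianFourier.integral_rexp_neg_mul_sq_norm (V := W) (b := 1) one_pos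
  have hpos : (0 : ℝ) < (Real.pi / 1) ^ (finrank ℝ W / 2 : ℝ) := by positivity
  have hI : Integrable (fun v : W => Real.exp (-1 * ‖v‖ ^ 2)) :=
    Integrable.of_integral_ne_zero (by rw [hG]; exact hpos.ne')
  have hI2 : Integrable (fun v : W => Real.exp n * Real.exp (-1 * ‖v‖ ^ 2)) := hI.const_mul _
  have hpi : Real.pi / 1 ≤ Real.exp 2 := by
    have h1 : (2 : ℝ) ≤ Real.exp 1 := by linarith [Real.add_one_le_exp (1 : ℝ)]
    have h2 : Real.exp 2 = Real.exp 1 * Real.exp 1 := by rw [← Real.exp_add]; norm_num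
    nlinarith [Real.pi_le_four]
  have hle : (Real.pi / 1) ^ (finrank ℝ W / 2 : ℝ) ≤ Real.exp n := by
    calc (Real.pi / 1) ^ (finrank ℝ W / 2 : ℝ) ≤ (Real.exp 2) ^ (finrank ℝ W / 2 : ℝ) :=
          Real.rpow_le_rpow (by positivity) hpi (by positivity)
      _ = Real.exp (finrank ℝ W) := by rw [← Real.exp_mul]; congr 1; ring
      _ ≤ Real.exp n := Real.exp_le_exp.2 (by exact_mod_cast h)
  calc volume (Metric.closedBall (0 : W) (√n))
      = ∫⁻ v in Metric.closedBall (0 : W) (√n), 1 := by simp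
    _ ≤ ∫⁻ v in Metric.closedBall (0 : W) (√n),
          ENNReal.ofReal (Real.exp n * Real.exp (-1 * ‖v‖ ^ 2)) := by
        refine setLIntegral_mono' measurableSet_closedBall fun v hv => ?_
        rw [mem_closedBall_zero_iff] at hv
        have h2 : ‖v‖ ^ 2 ≤ n := by
          have := pow_le_pow_left₀ (norm_nonneg v) hv 2
          rwa [Real.sq_sqrt (by positivity)] at this
        rw [← Real.exp_add, ENNReal.one_le_ofReal]
        exact Real.one_le_exp (by linarith)
    _ ≤ ∫⁻ v : W, ENNReal.ofReal (Real.exp n * Real.exp (-1 * ‖v‖ ^ 2)) :=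
        setLIntegral_le_lintegral _ _
    _ = ENNReal.ofReal (∫ v : W, Real.exp n * Real.exp (-1 * ‖v‖ ^ 2)) :=
        (ofReal_integral_eq_lintegral_ofReal hI2
          (Filter.Eventually.of_forall fun v => by positivity)).symm
    _ ≤ ENNReal.ofReal (Real.exp (2 * n)) := by
        apply ENNReal.ofReal_le_ofReal
        rw [integral_const_mul, hG, two_mul, Real.exp_add]
        exact mul_le_mul_of_nonneg_left hle (Real.exp_pos _).le

theorem ball_ge {n : ℕ} (h : finrank ℝ W = n) : 1 ≤ volume (Metric.closedBall (0 : W) (√n)) := by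
  let b := stdOrthonormalBasis ℝ W
  rw [← b.volume_parallelepiped]
  refine measure_mono fun x hx => ?_
  obtain ⟨t, ht, rfl⟩ := (mem_parallelepiped_iff _ _).1 hx
  rw [mem_closedBall_zero_iff]
  apply Real.le_sqrt_of_sq_le
  have h1 : ‖∑ i, t i • b i‖ ^ 2 = ∑ i, t i ^ 2 := by
    rw [← real_inner_self_eq_norm_sq, b.orthonormal.inner_sum]
    simp [sq]
  rw [h1]
  calc ∑ i, t i ^ 2 ≤ ∑ _i : Fin (finrank ℝ W), (1 : ℝ) :=
        Finset.sum_le_sum fun i _ => by
          have h0 : 0 ≤ t i := ht.1 i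
          have h1 : t i ≤ 1 := ht.2 i
          nlinarith
    _ = n := by simp [h]

end Pool.Agent.P.MP_f511bc_an.Nb
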