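import Pool.Agent.P.MP_f511bc_an.Nb.Defs

/-! The choice of the parameters. -/

open Filter

namespace Pool.Agent.P.MP_f511bc_an.Nb

theorem num_br (c μ k : ℕ) (hc : 1 ≤ c) (hk : 1 ≤ k) {r : ℝ} (hr : 0 ≤ r) :
    Real.exp (2 * ((c * k : ℕ) : ℝ)) *
        (2 ^ (2 * (c * k + μ * (c * k))) * (80 * r * √((c * k : ℕ) : ℝ)) ^ k / k.factorial) ≤
      (Real.exp (2 * c) * 2 ^ (2 * (c + μ * c)) * (Real.exp 1 * c) *
        (80 * r * √((c * k : ℕ) : ℝ) / ((c * k : ℕ) : ℝ))) ^ k := by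
  have hk0 : (0 : ℝ) < k := by exact_mod_cast hk
  have hc0 : (0 : ℝ) < c := by exact_mod_cast hc
  have hf : (0 : ℝ) < k.factorial := by exact_mod_cast k.factorial_pos
  have h1 : Real.exp (2 * ((c * k : ℕ) : ℝ)) = Real.exp (2 * c) ^ k := by
    rw [← Real.exp_nat_mul]; push_cast; ring_nf
  have h2 : (2 : ℝ) ^ (2 * (c * k + μ * (c * k))) = (2 ^ (2 * (c + μ * c))) ^ k := by
    rw [← pow_mul]; ring_nf
  have h3 : (1 : ℝ) / k.factorial ≤ (Real.exp 1 / k) ^ k := by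
    have h := Real.pow_div_factorial_le_exp (k : ℝ) hk0.le k
    rw [div_pow, ← Real.exp_nat_mul, mul_one, div_le_div_iff₀ hf (pow_pos hk0 k), one_mul]
    rwa [div_le_iff₀ hf] at h
  have h4 : Real.exp (2 * c) * 2 ^ (2 * (c + μ * c)) * (Real.exp 1 * c) *
        (80 * r * √((c * k : ℕ) : ℝ) / ((c * k : ℕ) : ℝ)) =
      Real.exp (2 * c) * (2 ^ (2 * (c + μ * c)) * (80 * r * √((c * k : ℕ) : ℝ)) *
        (Real.exp 1 / k)) := by
    have : ((c * k : ℕ) : ℝ) = c * k := by push_cast; ring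
    generalize √((c * k : ℕ) : ℝ) = w
    rw [this]
    field_simp
  rw [h4, h1, h2, mul_pow (Real.exp (2 * c)), mul_pow _ (Real.exp 1 / k),
    mul_pow (2 ^ (2 * (c + μ * c)) : ℝ), div_eq_mul_one_div]
  refine mul_le_mul_of_nonneg_left (mul_le_mul_of_nonneg_left h3 ?_) ?_ <;> positivity

theorem num (c : ℕ) (hc : 1 ≤ c) {q Λ : ℝ} (hq : 2 < q) (hΛ : 1 ≤ Λ) (n0 : ℕ) :
    ∃ k M : ℕ, n0 ≤ k ∧ 1 ≤ k ∧
      2 * Λ * ((c * k + M : ℕ) : ℝ) ^ (1 / q) ≤ ((c * k : ℕ) : ℝ) ∧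
      (40 * ((c * k : ℕ) : ℝ) ^ 4 + 1) ^ ((c * k) ^ 2) *
        bound (c * k) M k (2 * Λ * ((c * k + M : ℕ) : ℝ) ^ (1 / q)) < 1 := by
  have hq0 : 0 < q := by linarith
  obtain ⟨d, hd⟩ : ∃ d : ℝ, d = (1 / 2 - 1 / q) / 2 := ⟨_, rfl⟩
  have hd0 : 0 < d := by
    have : 1 / q < 1 / 2 := one_div_lt_one_div_of_lt (by norm_num) hq
    rw [hd]; linarith
  obtain ⟨μ, hμ⟩ := exists_nat_gt (5 * c / d)
  have hc0 : (0 : ℝ) < c := by exact_mod_cast hc
  have hμ0 : (0 : ℝ) < μ := lt_trans (by positivity) hμ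
  have hμ1 : 1 ≤ μ := by exact_mod_cast hμ0
  have hμd : (5 * c : ℝ) ≤ d * μ := by
    rw [div_lt_iff₀ hd0] at hμ; linarith
  obtain ⟨A2, hA2⟩ : ∃ A2 : ℝ, A2 = 2 * Λ * (1 + μ : ℝ) ^ (1 / q) := ⟨_, rfl⟩
  obtain ⟨A1, hA1⟩ : ∃ A1 : ℝ,
      A1 = Real.exp (2 * c) * 2 ^ (2 * (c + μ * c)) * (Real.exp 1 * c) := ⟨_, rfl⟩
  have hA20 : 0 < A2 := by rw [hA2]; positivity
  have hA10 : 0 < A1 := by rw [hA1]; positivity
  have ht : Tendsto (fun k : ℕ => ((c * k : ℕ) : ℝ)) atTop atTop := by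
    refine tendsto_natCast_atTop_atTop.comp (tendsto_atTop_mono (fun k => ?_) tendsto_id)
    exact Nat.le_mul_of_pos_left k hc
  have hs := (tendsto_rpow_atTop hd0).comp ht
  obtain ⟨k, ⟨⟨hk0, hk1⟩, hx⟩, hs1, hs2⟩ :=
    ((((eventually_ge_atTop n0).and (eventually_ge_atTop 1)).and
      (ht.eventually_ge_atTop 41)).and ((hs.eventually_gt_atTop (A1 * (80 * A2))).and
      (hs.eventually_ge_atTop A2))).exists
  simp only [Function.comp_apply] at hs1 hs2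
  have hbr := fun {r : ℝ} (hr : 0 ≤ r) => num_br c μ k hc hk1 hr
  have hcast : ((c * k + μ * (c * k) : ℕ) : ℝ) = (1 + μ) * ((c * k : ℕ) : ℝ) := by
    push_cast; ring
  refine ⟨k, μ * (c * k), hk0, hk1, ?_⟩
  unfold bound
  rw [hcast]
  rw [← hA1] at hbr
  have hn1 : 1 ≤ c * k := Nat.mul_pos hc hk1
  generalize hxx : ((c * k : ℕ) : ℝ) = x at *
  have hx0 : 0 < x := by linarith
  have hx1 : 1 ≤ x := by linarith
  have hr : 2 * Λ * ((1 + μ) * x) ^ (1 / q) = A2 * x ^ (1 / q) := by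
    rw [Real.mul_rpow (by positivity) hx0.le, hA2]; ring
  rw [hr]
  obtain ⟨s, hsd⟩ : ∃ s : ℝ, s = x ^ d := ⟨_, rfl⟩
  rw [← hsd] at hs1 hs2
  have hs0 : 1 ≤ s := by rw [hsd]; exact Real.one_le_rpow hx1 hd0.le
  obtain ⟨y, hy⟩ : ∃ y : ℝ, y = x ^ (1 / q) := ⟨_, rfl⟩
  have hy0 : 0 < y := by rw [hy]; positivity
  have hw1 : 1 ≤ √x := Real.one_le_sqrt.2 hx1
  have hkey : y * √x * (s * s) = x := by
    rw [hy, hsd, Real.sqrt_eq_rpow, ← Real.rpow_add hx0, ← Real.rpow_add hx0,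
      ← Real.rpow_add hx0, hd]
    have : 1 / q + 1 / 2 + ((1 / 2 - 1 / q) / 2 + (1 / 2 - 1 / q) / 2) = 1 := by ring
    rw [this, Real.rpow_one]
  rw [← hy]
  constructor
  · have h1 : A2 * y ≤ s * y := mul_le_mul_of_nonneg_right hs2 hy0.le
    have h2 : s * y * 1 ≤ s * y * (√x * s) :=
      mul_le_mul_of_nonneg_left (one_le_mul_of_one_le_of_one_le hw1 hs0) (by positivity)
    have h3 : s * y * (√x * s) = x := (by ring : _ = y * √x * (s * s)).trans hkey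
    linarith
  · have hnet : (40 * x ^ 4 + 1) ^ ((c * k) ^ 2) ≤ (s ^ k) ^ (μ * (c * k)) := by
      have h4 : 1 ≤ x ^ 4 := one_le_pow₀ hx1
      have h5 : 40 * x ^ 4 + 1 ≤ x ^ 5 := by nlinarith
      have h6 : (x ^ 5) ^ c ≤ s ^ μ := by
        rw [hsd, ← Real.rpow_natCast (x ^ d), ← Real.rpow_mul hx0.le, ← pow_mul,
          ← Real.rpow_natCast]
        exact Real.rpow_le_rpow_of_exponent_le hx1 (by push_cast; exact hμd)
      calc (40 * x ^ 4 + 1) ^ ((c * k) ^ 2) ≤ (x ^ 5) ^ ((c * k) ^ 2) :=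
            pow_le_pow_left₀ (by positivity) h5 _
        _ = ((x ^ 5) ^ c) ^ (k * (c * k)) := by rw [← pow_mul (x ^ 5)]; ring_nf
        _ ≤ (s ^ μ) ^ (k * (c * k)) := pow_le_pow_left₀ (by positivity) h6 _
        _ = (s ^ k) ^ (μ * (c * k)) := by rw [← pow_mul, ← pow_mul]; ring_nf
    have hb := hbr (r := A2 * y) (by positivity)
    have hz : s * (A1 * (80 * (A2 * y) * √x / x)) < 1 := by
      have h7 : s * (A1 * (80 * (A2 * y) * √x / x)) = A1 * (80 * A2) / s := by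
        have hs' : s ≠ 0 := by linarith
        rw [eq_div_iff hs']
        have : s * (A1 * (80 * (A2 * y) * √x / x)) * s =
            A1 * (80 * A2) * (y * √x * (s * s) / x) := by ring
        rw [this, hkey, div_self hx0.ne', mul_one]
      rw [h7, div_lt_one (by linarith)]
      exact hs1
    have hM : μ * (c * k) ≠ 0 := (Nat.mul_pos hμ1 hn1).ne'
    calc _ ≤ (s ^ k) ^ (μ * (c * k)) *
          ((A1 * (80 * (A2 * y) * √x / x)) ^ k) ^ (μ * (c * k)) :=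
          mul_le_mul hnet (pow_le_pow_left₀ (by positivity) hb _) (by positivity) (by positivity)
      _ = ((s * (A1 * (80 * (A2 * y) * √x / x))) ^ k) ^ (μ * (c * k)) := by
          rw [← mul_pow, ← mul_pow]
      _ < 1 := pow_lt_one₀ (by positivity)
          (pow_lt_one₀ (by positivity) hz (by omega)) hM

end Pool.Agent.P.MP_f511bc_an.Nb
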