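import Pool.Agent.P.MP_f511bc_an.Nb.Core
import Pool.Agent.P.MP_f511bc_an.Nb.Num

/-! A subspace of `l_q^N` on which every mixing operator has a large norm. -/

open Finset Module
open scoped ENNReal

namespace Pool.Agent.P.MP_f511bc_an.Nb

/-- The bipolar form of membership in an absolutely convex hull. -/
theorem blk_bipolar {ι V : Type*} [Fintype ι] [NormedAddCommGroup V] [InnerProductSpace ℝ V]
    [FiniteDimensional ℝ V] {r : ℝ} (hr : 0 < r) (y : ι → V) (z : V)
    (h : ∀ (x : V) (t : ℝ), 0 ≤ t → (∀ j, |inner ℝ (y j) x| ≤ t) → inner ℝ z x ≤ r * t) :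
    z ∈ AC r y := by
  classical
  by_contra hz
  have hcl : IsClosed (AC r y) :=
    fub_closed hr.le (fun x : V => x) (fun _ => y) continuous_id fun _ => continuous_const
  have hcv : Convex ℝ (AC r y) := by
    rintro _ ⟨a, ha, rfl⟩ _ ⟨b, hb, rfl⟩ s t hs ht hst
    refine ⟨fun j => s * a j + t * b j, ?_, ?_⟩
    · calc ∑ j, |s * a j + t * b j| ≤ ∑ j, (s * |a j| + t * |b j|) := by
            refine sum_le_sum fun j _ => (abs_add_le _ _).trans ?_
            rw [abs_mul, abs_mul, abs_of_nonneg hs, abs_of_nonneg ht]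
        _ = s * ∑ j, |a j| + t * ∑ j, |b j| := by rw [sum_add_distrib, mul_sum, mul_sum]
        _ ≤ s * r + t * r :=
            add_le_add (mul_le_mul_of_nonneg_left ha hs) (mul_le_mul_of_nonneg_left hb ht)
        _ = r := by rw [← add_mul, hst, one_mul]
    · simp only [add_smul, sum_add_distrib, smul_sum, mul_smul]
  obtain ⟨f, u, h1, h2⟩ := geometric_hahn_banach_closed_point hcv hcl hz
  have : CompleteSpace V := FiniteDimensional.complete ℝ V
  obtain ⟨x, hx⟩ : ∃ x : V, ∀ v, f v = inner ℝ v x :=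
    ⟨(InnerProductSpace.toDual ℝ V).symm f, fun v => by
      rw [real_inner_comm, InnerProductSpace.toDual_symm_apply]⟩
  have hu : 0 < u := by
    have := h1 0 ⟨0, by simpa using hr.le, by simp⟩
    simpa using this
  have hs : ∀ (j : ι) (s : ℝ), |s| ≤ r → s * inner ℝ (y j) x < u := by
    intro j s hs
    have := h1 (s • y j) ⟨Pi.single j s, by
      rw [sum_eq_single j (fun i _ hi => by simp [hi]) (by simp)]
      simpa using hs, by
      rw [sum_eq_single j (fun i _ hi => by simp [hi]) (by simp)]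
      simp⟩
    rwa [hx, real_inner_smul_left] at this
  have ht : ∀ j, |inner ℝ (y j) x| ≤ u / r := by
    intro j
    have a1 := hs j r (abs_of_pos hr).le
    have a2 := hs j (-r) (by rw [abs_neg]; exact (abs_of_pos hr).le)
    rw [le_div_iff₀ hr, ← abs_of_pos hr, ← abs_mul, abs_le]
    constructor <;> linarith
  have := h x (u / r) (div_pos hu hr).le ht
  rw [mul_div_cancel₀ _ hr.ne', ← hx] at this
  exact absurd h2 (not_lt.2 this)

theorem blk_norm_le {K : Type*} [RCLike K] (q : ℝ≥0∞) [Fact (1 ≤ q)] (hq : 0 < q.toReal) {N : ℕ}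
    (x : PiLp q fun _ : Fin N => K) {t : ℝ} (ht : 0 ≤ t) (h : ∀ j, ‖x j‖ ≤ t) :
    ‖x‖ ≤ (N : ℝ) ^ (1 / q.toReal) * t := by
  rw [PiLp.norm_eq_sum hq]
  have h1 : ∑ j, ‖x j‖ ^ q.toReal ≤ N * t ^ q.toReal := by
    calc ∑ j, ‖x j‖ ^ q.toReal ≤ ∑ _j : Fin N, t ^ q.toReal :=
          sum_le_sum fun j _ => Real.rpow_le_rpow (norm_nonneg _) (h j) hq.le
      _ = N * t ^ q.toReal := by simp
  calc (∑ j, ‖x j‖ ^ q.toReal) ^ (1 / q.toReal) ≤ (N * t ^ q.toReal) ^ (1 / q.toReal) :=
        Real.rpow_le_rpow (sum_nonneg fun j _ => by positivity) h1 (by positivity)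
    _ = (N : ℝ) ^ (1 / q.toReal) * t := by
        rw [Real.mul_rpow (by positivity) (by positivity), one_div,
          Real.rpow_rpow_inv ht hq.ne']

theorem blk_norm_re_im {K : Type*} [RCLike K] (z : K) : ‖z‖ ≤ |RCLike.re z| + |RCLike.im z| := by
  have h := RCLike.norm_sq_eq_def (z := z)
  refine le_of_sq_le_sq ?_ (by positivity)
  have h1 := abs_mul_abs_self (RCLike.re z)
  have h2 := abs_mul_abs_self (RCLike.im z)
  have h3 := mul_nonneg (abs_nonneg (RCLike.re z)) (abs_nonneg (RCLike.im z))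
  nlinarith

theorem blk_abs {K V : Type*} [RCLike K] [NormedAddCommGroup V] [InnerProductSpace K V]
    [FiniteDimensional K V] [InnerProductSpace ℝ V] [FiniteDimensional ℝ V]
    (hsm : ∀ (r : ℝ) (x : V), r • x = (r : K) • x)
    (hre : ∀ x y : V, inner ℝ x y = RCLike.re (inner K x y))
    (q : ℝ≥0∞) [Fact (1 ≤ q)] (hq : 0 < q.toReal) {Λ : ℝ} (hΛ : 1 ≤ Λ) {n M k : ℕ}
    (hn : finrank ℝ V = n) (h1 : 1 ≤ n)
    (hrn : 2 * Λ * ((n + M : ℕ) : ℝ) ^ (1 / q.toReal) ≤ n)
    (hb : (40 * (n : ℝ) ^ 4 + 1) ^ (n ^ 2) *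
      bound n M k (2 * Λ * ((n + M : ℕ) : ℝ) ^ (1 / q.toReal)) < 1) :
    ∃ J : V →ₗ[K] PiLp q fun _ : Fin (n + M) => K, Function.Injective J ∧
      ∀ T : V →ₗ[K] V, (∀ x, ‖J (T x)‖ ≤ Λ * ‖J x‖) → ¬ Mix k T := by
  let e : OrthonormalBasis (Fin n) ℝ V := (stdOrthonormalBasis ℝ V).reindex (finCongr hn)
  let J0 : V →ₗ[ℝ] V :=
    { toFun := fun x => (RCLike.I : K) • x
      map_add' := fun x y => smul_add _ _ _
      map_smul' := fun r x => by
        simp only [RingHom.id_apply, hsm]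
        exact smul_comm _ _ _ }
  have hJ0 : ∀ x, J0 x = (RCLike.I : K) • x := fun _ => rfl
  have hJn : ∀ x, ‖J0 x‖ ≤ ‖x‖ := by
    intro x
    rw [hJ0, norm_smul]
    refine mul_le_of_le_one_left (norm_nonneg _) ?_
    rw [RCLike.norm_I]
    split_ifs <;> norm_num
  have hp : (1 : ℝ) ≤ ((n + M : ℕ) : ℝ) ^ (1 / q.toReal) :=
    Real.one_le_rpow (by exact_mod_cast h1.trans (Nat.le_add_right n M)) (by positivity)
  have hr : 1 ≤ 2 * Λ * ((n + M : ℕ) : ℝ) ^ (1 / q.toReal) := by nlinarith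
  obtain ⟨g, hg⟩ := core (M := M) (k := k) e h1 J0 hJn hr hrn hb
  let v : Fin n ⊕ Fin M → V := Sum.elim e g
  let J : V →ₗ[K] PiLp q fun _ : Fin (n + M) => K :=
    { toFun := fun x => WithLp.toLp q fun j => inner K (v (finSumFinEquiv.symm j)) x
      map_add' := fun x y => by
        ext j
        simp [inner_add_right]
      map_smul' := fun c x => by
        ext j
        simp [inner_smul_right] }
  have hJ : ∀ x j, J x j = inner K (v (finSumFinEquiv.symm j)) x := fun _ _ => rfl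
  refine ⟨J, ?_, fun T hT hM => ?_⟩
  · rw [injective_iff_map_eq_zero]
    intro x hx
    have h0 : ∀ i, inner ℝ (e i) x = 0 := by
      intro i
      have := hJ x (finSumFinEquiv (Sum.inl i))
      rw [hx, Equiv.symm_apply_apply] at this
      rw [hre]
      have h2 : inner K (e i) x = 0 := this.symm
      rw [h2, map_zero]
    have := e.sum_sq_norm_inner_right x
    simp only [h0, norm_zero] at this
    have h3 : ‖x‖ ^ 2 = 0 := by rw [← this]; simp
    simpa using h3
  · let S : V →ₗ[ℝ] V :=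
      { toFun := fun x => LinearMap.adjoint T x
        map_add' := fun x y => map_add _ _ _
        map_smul' := fun r x => by
          simp only [RingHom.id_apply, hsm]
          exact map_smul _ _ _ }
    have hS : ∀ x, S x = LinearMap.adjoint T x := fun _ => rfl
    obtain ⟨u, w, hu, hw, huw, hc⟩ := hM
    have hon : ∀ a : Fin k → V, Orthonormal K a → Orthonormal ℝ a := fun a ha =>
      ⟨ha.1, fun i j hij => (hre _ _).trans (by rw [ha.2 hij, map_zero])⟩
    have hwu : ∀ a b, inner K (w a) (u b) = 0 := fun a b => by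
      rw [← inner_conj_symm, huw, map_zero]
    refine hg S ⟨w, u, hon w hw, hon u hu, fun a b => by rw [hre, hwu, map_zero],
      fun a b => by rw [hre, hJ0, inner_smul_right, hwu, mul_zero, map_zero], fun c => ?_⟩
      fun i => ?_
    · simp only [hsm]
      rw [hre, hS, LinearMap.adjoint_inner_right, inner_re_symm]
      exact hc c
    · refine blk_bipolar (lt_of_lt_of_le one_pos hr) _ _ fun x t ht hx => ?_
      have hco : ∀ j, ‖J x j‖ ≤ 2 * t := by
        intro j
        have a1 : |inner ℝ (v (finSumFinEquiv.symm j)) x| ≤ t :=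
          hx (Sum.inl (finSumFinEquiv.symm j))
        have a2 : |inner ℝ (J0 (v (finSumFinEquiv.symm j))) x| ≤ t :=
          hx (Sum.inr (finSumFinEquiv.symm j))
        rw [hre] at a1
        rw [hre, hJ0, inner_smul_left, RCLike.conj_I, neg_mul, map_neg, RCLike.I_mul_re,
          neg_neg] at a2
        rw [hJ]
        have := blk_norm_re_im (inner K (v (finSumFinEquiv.symm j)) x)
        linarith
      have b1 := blk_norm_le q hq (J x) (by positivity) hco
      have b2 : ‖J (T x) (finSumFinEquiv i)‖ ≤ ‖J (T x)‖ := PiLp.norm_apply_le _ _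
      rw [hJ, Equiv.symm_apply_apply] at b2
      have b3 := RCLike.re_le_norm (inner K (v i) (T x))
      have b4 := mul_le_mul_of_nonneg_left b1 (zero_le_one.trans hΛ)
      have b5 := hT x
      have b6 : inner ℝ (S (v i)) x = RCLike.re (inner K (v i) (T x)) := by
        rw [hre, hS, LinearMap.adjoint_inner_left]
      change inner ℝ (S (v i)) x ≤ _
      rw [b6]
      linarith

theorem blk_gen {K V : Type*} [RCLike K] [NormedAddCommGroup V] [InnerProductSpace K V]
    [FiniteDimensional K V] (q : ℝ≥0∞) [Fact (1 ≤ q)] (hq : 0 < q.toReal) {Λ : ℝ} (hΛ : 1 ≤ Λ)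
    {n M k : ℕ} (hn : finrank ℝ K * finrank K V = n) (h1 : 1 ≤ n)
    (hrn : 2 * Λ * ((n + M : ℕ) : ℝ) ^ (1 / q.toReal) ≤ n)
    (hb : (40 * (n : ℝ) ^ 4 + 1) ^ (n ^ 2) *
      bound n M k (2 * Λ * ((n + M : ℕ) : ℝ) ^ (1 / q.toReal)) < 1) :
    ∃ J : V →ₗ[K] PiLp q fun _ : Fin (n + M) => K, Function.Injective J ∧
      ∀ T : V →ₗ[K] V, (∀ x, ‖J (T x)‖ ≤ Λ * ‖J x‖) → ¬ Mix k T := by
  let _ : InnerProductSpace ℝ V := InnerProductSpace.rclikeToReal K V
  have hsm : ∀ (r : ℝ) (x : V), r • x = (r : K) • x := fun _ _ => rfl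
  have : IsScalarTower ℝ K V := ⟨fun r a x => by
    rw [hsm, RCLike.real_smul_eq_coe_mul, mul_smul]⟩
  have : FiniteDimensional ℝ V := Module.Finite.trans K V
  exact blk_abs hsm (fun _ _ => rfl) q hq hΛ ((Module.finrank_mul_finrank ℝ K V).symm.trans hn)
    h1 hrn hb

theorem block (K : Type*) [RCLike K] (q : ℝ≥0∞) [Fact (1 ≤ q)] (hq : 2 < q.toReal) {Λ : ℝ}
    (hΛ : 1 ≤ Λ) (n0 : ℕ) :
    ∃ (k N : ℕ) (J : EuclideanSpace K (Fin (12 * k)) →ₗ[K] PiLp q fun _ : Fin N => K),
      n0 ≤ k ∧ 1 ≤ k ∧ Function.Injective J ∧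
      ∀ T : EuclideanSpace K (Fin (12 * k)) →ₗ[K] EuclideanSpace K (Fin (12 * k)),
        (∀ x, ‖J (T x)‖ ≤ Λ * ‖J x‖) → ¬ Mix k T := by
  have hK : 0 < finrank ℝ K := Module.finrank_pos
  obtain ⟨k, M, hk0, hk1, hrn, hb⟩ := num (12 * finrank ℝ K) (by omega) hq hΛ n0
  obtain ⟨J, hJ, hT⟩ := blk_gen (K := K) (V := EuclideanSpace K (Fin (12 * k))) q
    (lt_trans two_pos hq) hΛ (n := 12 * finrank ℝ K * k) (M := M) (k := k)
    (by rw [finrank_euclideanSpace_fin]; ring)
    (Nat.mul_pos (by omega) hk1) hrn hb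
  exact ⟨k, _, J, hk0, hk1, hJ, hT⟩

end Pool.Agent.P.MP_f511bc_an.Nb
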