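import Pool.Agent.P.MP_f511bc_an.Nb.Dom

/-! A chain of rank one steps from `0` to the identity meets a mixing operator. -/

open Finset Module RCLike Filter Topology

namespace Pool.Agent.P.MP_f511bc_an.Nb

variable {K V : Type*} [RCLike K] [NormedAddCommGroup V] [InnerProductSpace K V]
  [FiniteDimensional K V]

theorem chain_ev (T : ℕ → V →ₗ[K] V) (hl : ∀ x, Tendsto (fun j => T j x) atTop (𝓝 x)) :
    ∃ j, ∀ x, (1 / 2) * ‖x‖ ^ 2 ≤ re (inner K x (T j x)) := by
  let e := stdOrthonormalBasis K V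
  have h1 : Tendsto (fun j => ∑ i, ‖T j (e i) - e i‖) atTop (𝓝 (∑ _i : Fin (finrank K V), 0)) := by
    refine tendsto_finsetSum _ fun i _ => ?_
    exact tendsto_iff_norm_sub_tendsto_zero.1 (hl (e i))
  rw [sum_const_zero] at h1
  obtain ⟨j, hj⟩ := (h1.eventually (gt_mem_nhds (by norm_num : (0 : ℝ) < 1 / 2))).exists
  refine ⟨j, fun x => ?_⟩
  have h2 : T j x - x = ∑ i, inner K (e i) x • (T j (e i) - e i) := by
    conv_lhs => rw [← e.sum_repr' x]
    rw [map_sum, ← sum_sub_distrib]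
    refine sum_congr rfl fun i _ => ?_
    rw [map_smul, smul_sub]
  have h3 : ‖T j x - x‖ ≤ ‖x‖ * ∑ i, ‖T j (e i) - e i‖ := by
    rw [h2, mul_sum]
    refine (norm_sum_le _ _).trans (sum_le_sum fun i _ => ?_)
    rw [norm_smul]
    refine mul_le_mul_of_nonneg_right ?_ (norm_nonneg _)
    have := norm_inner_le_norm (𝕜 := K) (e i) x
    rwa [e.orthonormal.1 i, one_mul] at this
  have h4 : re (inner K x (T j x)) = ‖x‖ ^ 2 + re (inner K x (T j x - x)) := by
    rw [inner_sub_right, map_sub, inner_self_eq_norm_sq]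
    ring
  have h5 : |re (inner K x (T j x - x))| ≤ ‖x‖ * ‖T j x - x‖ :=
    (abs_re_le_norm _).trans (norm_inner_le_norm _ _)
  have h6 : ‖T j x - x‖ ≤ ‖x‖ * (1 / 2) :=
    h3.trans (mul_le_mul_of_nonneg_left hj.le (norm_nonneg _))
  have h7 := mul_le_mul_of_nonneg_left h6 (norm_nonneg x)
  have h8 := (abs_le.1 h5).1
  rw [h4]
  nlinarith

theorem chain_ker (N : Submodule K V) (f : V →ₗ[K] K) :
    finrank K N ≤ finrank K (N ⊓ LinearMap.ker f : Submodule K V) + 1 := by
  have h1 := Submodule.finrank_sup_add_finrank_inf_eq N (LinearMap.ker f)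
  have h2 := LinearMap.finrank_range_add_finrank_ker f
  have h3 : finrank K (LinearMap.range f) ≤ 1 := by
    have := Submodule.finrank_le (LinearMap.range f)
    rwa [finrank_self] at this
  have h4 := Submodule.finrank_le (N ⊔ LinearMap.ker f)
  omega

theorem chain_adj (T : V →ₗ[K] V) (x : V) :
    re (inner K x (LinearMap.adjoint T x)) = re (inner K x (T x)) := by
  rw [LinearMap.adjoint_inner_right, inner_re_symm]

theorem chain_sq (T : V →ₗ[K] V) (x : V)
    (h : ‖T x + LinearMap.adjoint T x - x‖ ≤ 2 / 5 * ‖x‖) :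
    (1 / 5) * ‖x‖ ^ 2 ≤ re (inner K x (T x - T (T x))) := by
  have h1 : re (inner K x (T x - T (T x))) =
      re (inner K x (T x)) - re (inner K (T x) (LinearMap.adjoint T x)) := by
    rw [inner_sub_right, map_sub, ← LinearMap.adjoint_inner_left T (T x) x,
      inner_re_symm (LinearMap.adjoint T x) (T x)]
  have h2 := norm_add_sq (𝕜 := K) (T x) (LinearMap.adjoint T x)
  have h3 := norm_sub_sq (𝕜 := K) (T x) (LinearMap.adjoint T x)
  have h4 := norm_sub_sq (𝕜 := K) (T x + LinearMap.adjoint T x) x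
  have h5 : re (inner K (T x + LinearMap.adjoint T x) x) = 2 * re (inner K x (T x)) := by
    rw [inner_re_symm, inner_add_right, map_add, chain_adj]
    ring
  have h6 : ‖T x + LinearMap.adjoint T x - x‖ ^ 2 ≤ (2 / 5 * ‖x‖) ^ 2 :=
    pow_le_pow_left₀ (norm_nonneg _) h 2
  have h7 := sq_nonneg ‖T x - LinearMap.adjoint T x‖
  have h8 := sq_nonneg ‖x‖
  rw [h1]
  nlinarith

theorem chain {H : Type*} [NormedAddCommGroup H] [InnerProductSpace K H] {k : ℕ} (hk : 1 ≤ k)
    (hV : finrank K V = 12 * k) (p : V → ℝ) (p0 : ∀ x, 0 ≤ p x) (p1 : ∀ x, p x ≤ 0 → x = 0)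
    {Λ : ℝ} (NM : ∀ T : V →ₗ[K] V, (∀ x, p (T x) ≤ Λ * p x) → ¬ Mix k T)
    (T : ℕ → V →ₗ[K] V) (h0 : T 0 = 0)
    (hs : ∀ j, ∃ f : V →ₗ[K] K, ∀ x, f x = 0 → T (j + 1) x = T j x)
    (hl : ∀ x, Tendsto (fun j => T j x) atTop (𝓝 x)) (hb : ∀ j x, p (T j x) ≤ Λ * p x)
    {a b : ℝ} (ha : 0 ≤ a) (hab : a * b ≤ Λ)
    (hd : ∀ j, ∃ C : V →ₗ[K] H, (∀ x, p (T j x - T j (T j x)) ≤ a * ‖C x‖) ∧
      ∀ x, ‖C x‖ ≤ b * p x) : False := by
  classical
  have hex : ∃ j, ∃ G : Submodule K V, 6 * k ≤ finrank K G ∧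
      ∀ x ∈ G, (1 / 2) * ‖x‖ ^ 2 ≤ re (inner K x (T j x)) := by
    obtain ⟨j, hj⟩ := chain_ev T hl
    refine ⟨j, ⊤, ?_, fun x _ => hj x⟩
    rw [finrank_top, hV]
    omega
  obtain ⟨G, hG, qG⟩ := Nat.find_spec hex
  have hmin := fun m => Nat.find_min hex (m := m)
  generalize Nat.find hex = j0 at qG hmin
  rcases j0 with _ | j
  · have hne : G ≠ ⊥ := by
      rintro rfl
      rw [finrank_bot] at hG
      omega
    obtain ⟨x, hx, hx0⟩ := Submodule.exists_mem_ne_zero_of_ne_bot hne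
    have h1 := qG x hx
    rw [h0, LinearMap.zero_apply, inner_zero_right, map_zero] at h1
    have h2 : 0 < ‖x‖ ^ 2 := pow_pos (norm_pos_iff.2 hx0) 2
    linarith
  obtain ⟨P, N, hPN, qP, qN⟩ := sign2 (T j) (1 / 2)
  have hP : finrank K P < 6 * k := by
    by_contra hc
    exact hmin j (Nat.lt_succ_self j) ⟨P, not_lt.1 hc, qP⟩
  obtain ⟨f, hf⟩ := hs j
  have hN' := chain_ker N f
  have qN' : ∀ x ∈ (N ⊓ LinearMap.ker f : Submodule K V),
      re (inner K x (T (j + 1) x)) ≤ (1 / 2) * ‖x‖ ^ 2 := by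
    intro x hx
    rw [hf x hx.2]
    exact qN x hx.1
  have hNM := NM (T (j + 1)) (hb (j + 1))
  obtain ⟨C, hC1, hC2⟩ := hd (j + 1)
  generalize T (j + 1) = R at qG qN' hNM hC1
  have hS : (R + LinearMap.adjoint R - LinearMap.id : V →ₗ[K] V).IsSymmetric := by
    intro x y
    simp only [LinearMap.sub_apply, LinearMap.add_apply, LinearMap.id_apply, inner_sub_left,
      inner_add_left, inner_sub_right, inner_add_right, LinearMap.adjoint_inner_left,
      LinearMap.adjoint_inner_right]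
    ring
  have hQ : ∀ x, re (inner K x ((R + LinearMap.adjoint R - LinearMap.id : V →ₗ[K] V) x)) =
      2 * re (inner K x (R x)) - ‖x‖ ^ 2 := by
    intro x
    rw [LinearMap.sub_apply, LinearMap.add_apply, LinearMap.id_apply, inner_sub_right,
      inner_add_right, map_sub, map_add, chain_adj, inner_self_eq_norm_sq]
    ring
  obtain ⟨P2, Z, N2, hdim, q1, q2, q3⟩ := spec3 _ hS (t := 2 / 5) (by norm_num)
  have hP2 : finrank K P2 < 4 * k := by
    by_contra hc
    refine hNM (spread R P2 (N ⊓ LinearMap.ker f) (not_lt.1 hc) (by omega) (a := 7 / 10)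
      (b := 1 / 2) (by norm_num) (fun x hx => ?_) qN')
    have := q1 x hx
    rw [hQ] at this
    linarith
  have hN2 : finrank K N2 < 4 * k := by
    by_contra hc
    refine hNM (spread R G N2 (by omega) (not_lt.1 hc) (a := 1 / 2)
      (b := 3 / 10) (by norm_num) qG fun x hx => ?_)
    have := q3 x hx
    rw [hQ] at this
    linarith
  obtain ⟨W, hW, hM⟩ := dom (k := k) (by omega) p p1 (R - R ∘ₗ R) C ha hC1 hC2 Z (by omega)
    fun x hx => chain_sq R x (q2 x hx)
  exact NM W (fun x => (hW x).trans (mul_le_mul_of_nonneg_right hab (p0 x))) hM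

end Pool.Agent.P.MP_f511bc_an.Nb
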