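import Pool.Agent.P.MP_f511bc_an.Nb.Fub

/-! The net of operators and the union bound. -/

open Finset Module MeasureTheory

namespace Pool.Agent.P.MP_f511bc_an.Nb

section Net

variable {V : Type*} [NormedAddCommGroup V] [InnerProductSpace ℝ V] {n : ℕ}

/-- The operator with matrix `d` in the orthonormal basis `e`. -/
noncomputable def cnOp (e : OrthonormalBasis (Fin n) ℝ V) (d : Fin n → Fin n → ℝ) : V →ₗ[ℝ] V where
  toFun x := ∑ a, (∑ b, d a b * inner ℝ (e b) x) • e a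
  map_add' x y := by
    simp only [inner_add_right, mul_add, Finset.sum_add_distrib, add_smul]
  map_smul' c x := by
    simp only [inner_smul_right, RingHom.id_apply, Finset.smul_sum, smul_smul, Finset.mul_sum]
    refine Finset.sum_congr rfl fun a _ => ?_
    congr 1
    exact Finset.sum_congr rfl fun b _ => by ring

theorem cn_op_apply (e : OrthonormalBasis (Fin n) ℝ V) (d : Fin n → Fin n → ℝ) (x : V) :
    cnOp e d x = ∑ a, (∑ b, d a b * inner ℝ (e b) x) • e a := rfl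

theorem cn_op_self (e : OrthonormalBasis (Fin n) ℝ V) (S : V →ₗ[ℝ] V) (x : V) :
    S x = ∑ a, (∑ b, inner ℝ (e a) (S (e b)) * inner ℝ (e b) x) • e a := by
  conv_lhs => rw [← e.sum_repr' (S x)]
  refine Finset.sum_congr rfl fun a _ => ?_
  congr 1
  conv_lhs => rw [← e.sum_repr' x]
  simp only [map_sum, map_smul, inner_sum, inner_smul_right]
  exact Finset.sum_congr rfl fun b _ => mul_comm _ _

theorem cn_op_split (e : OrthonormalBasis (Fin n) ℝ V) (S : V →ₗ[ℝ] V) (d : Fin n → Fin n → ℝ)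
    (x : V) : cnOp e d x =
      S x + ∑ a, (∑ b, (d a b - inner ℝ (e a) (S (e b))) * inner ℝ (e b) x) • e a := by
  rw [cn_op_apply, cn_op_self e S x, ← Finset.sum_add_distrib]
  refine Finset.sum_congr rfl fun a _ => ?_
  rw [← add_smul, ← Finset.sum_add_distrib]
  congr 1
  exact Finset.sum_congr rfl fun b _ => by ring

theorem cn_l1_coord (e : OrthonormalBasis (Fin n) ℝ V) (x : V) :
    ∑ b, |inner ℝ (e b) x| ≤ √n * ‖x‖ := by
  have h1 : (∑ b, |inner ℝ (e b) x|) ^ 2 ≤ (n : ℝ) * ‖x‖ ^ 2 := by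
    have h2 := sq_sum_le_card_mul_sum_sq (s := (univ : Finset (Fin n)))
      (f := fun b => |inner ℝ (e b) x|)
    have h3 := e.sum_sq_norm_inner_right x
    simp only [Real.norm_eq_abs] at h3
    rw [h3] at h2
    simpa using h2
  refine abs_le_of_sq_le_sq' ?_ (by positivity) |>.2
  rwa [mul_pow, Real.sq_sqrt (by positivity)]

theorem cn_l1_err (e : OrthonormalBasis (Fin n) ℝ V) (d : Fin n → Fin n → ℝ) {ρ : ℝ} (hρ : 0 ≤ ρ)
    (hd : ∀ a b, |d a b| ≤ ρ) (x : V) :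
    ∑ a, |∑ b, d a b * inner ℝ (e b) x| ≤ n * (ρ * (√n * ‖x‖)) := by
  have h : ∀ a, |∑ b, d a b * inner ℝ (e b) x| ≤ ρ * (√n * ‖x‖) := fun a =>
    calc |∑ b, d a b * inner ℝ (e b) x| ≤ ∑ b, |d a b * inner ℝ (e b) x| :=
          Finset.abs_sum_le_sum_abs _ _
      _ ≤ ∑ b, ρ * |inner ℝ (e b) x| := Finset.sum_le_sum fun b _ => by
          rw [abs_mul]
          exact mul_le_mul_of_nonneg_right (hd a b) (abs_nonneg _)
      _ = ρ * ∑ b, |inner ℝ (e b) x| := (Finset.mul_sum _ _ _).symm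
      _ ≤ ρ * (√n * ‖x‖) := mul_le_mul_of_nonneg_left (cn_l1_coord e x) hρ
  calc _ ≤ ∑ _a : Fin n, ρ * (√n * ‖x‖) := Finset.sum_le_sum fun a _ => h a
    _ = _ := by simp

theorem cn_norm_comb_le {ι : Type*} [Fintype ι] (y : ι → V) {L : ℝ} (hy : ∀ j, ‖y j‖ ≤ L)
    (c : ι → ℝ) : ‖∑ j, c j • y j‖ ≤ (∑ j, |c j|) * L := by
  rw [Finset.sum_mul]
  refine (norm_sum_le _ _).trans (Finset.sum_le_sum fun j _ => ?_)
  rw [norm_smul, Real.norm_eq_abs]
  exact mul_le_mul_of_nonneg_left (hy j) (abs_nonneg _)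

theorem cn_AC_add {M : ℕ} (J : V →ₗ[ℝ] V) (e : Fin n → V) (g : Fin M → V) {r : ℝ} {z : V}
    (hz : z ∈ AC r (fam J e g)) (c : Fin n → ℝ) (hc : ∑ a, |c a| ≤ r) :
    z + ∑ a, c a • e a ∈ AC (2 * r) (fam J e g) := by
  obtain ⟨α, h1, h2⟩ := hz
  refine ⟨fun j => α j + Sum.elim (Sum.elim c fun _ => 0) (fun _ => 0) j, ?_, ?_⟩
  · have h3 : ∑ j : (Fin n ⊕ Fin M) ⊕ (Fin n ⊕ Fin M),
        |Sum.elim (Sum.elim c fun _ => (0 : ℝ)) (fun _ => 0) j| = ∑ a, |c a| := by
      simp [Fintype.sum_sum_type]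
    calc _ ≤ ∑ j, (|α j| + |Sum.elim (Sum.elim c fun _ => (0 : ℝ)) (fun _ => 0) j|) :=
          Finset.sum_le_sum fun j _ => abs_add_le _ _
      _ = ∑ j, |α j| + ∑ a, |c a| := by rw [Finset.sum_add_distrib, h3]
      _ ≤ 2 * r := by linarith
  · simp only [add_smul, Finset.sum_add_distrib, h2]
    congr 1
    simp [Fintype.sum_sum_type, fam]

theorem cn_norm_sq_comb {k : ℕ} {u : Fin k → V} (hu : Orthonormal ℝ u) (c : Fin k → ℝ) :
    ‖∑ a, c a • u a‖ ^ 2 = ∑ a, c a ^ 2 := by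
  rw [← real_inner_self_eq_norm_sq, hu.inner_sum]
  simp [sq]

theorem cn_RMix_near {k : ℕ} {J S S' : V →ₗ[ℝ] V} (h : RMix k (1 / 10) J S)
    (hD : ∀ x, ‖S' x - S x‖ ≤ 1 / 20 * ‖x‖) : RMix k (1 / 20) J S' := by
  obtain ⟨u, w, hu, hw, h1, h2, h3⟩ := h
  refine ⟨u, w, hu, hw, h1, h2, fun c => ?_⟩
  have h4 := h3 c
  have hU := cn_norm_sq_comb hu c
  have hW := cn_norm_sq_comb hw c
  set U := ∑ a, c a • u a
  set W := ∑ a, c a • w a
  have hUW : ‖U‖ = ‖W‖ := by
    have := hU.trans hW.symm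
    exact (pow_left_inj₀ (norm_nonneg _) (norm_nonneg _) two_ne_zero).1 this
  have h5 : inner ℝ U (S' W) = inner ℝ U (S W) + inner ℝ U (S' W - S W) := by
    rw [inner_sub_right]; ring
  have h6 : |inner ℝ U (S' W - S W)| ≤ ‖U‖ * (1 / 20 * ‖W‖) :=
    (abs_real_inner_le_norm _ _).trans (mul_le_mul_of_nonneg_left (hD W) (norm_nonneg _))
  have h7 := (abs_le.1 h6).1
  rw [hUW] at h7
  rw [h5]
  nlinarith

end Net

theorem core {V : Type*} [NormedAddCommGroup V] [InnerProductSpace ℝ V] [FiniteDimensional ℝ V]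
    {n M k : ℕ} (e : OrthonormalBasis (Fin n) ℝ V) (h1 : 1 ≤ n) (J : V →ₗ[ℝ] V)
    (hJ : ∀ x, ‖J x‖ ≤ ‖x‖) {r : ℝ} (hr : 1 ≤ r) (hrn : r ≤ n)
    (hb : (40 * (n : ℝ) ^ 4 + 1) ^ (n ^ 2) * bound n M k r < 1) :
    ∃ g : Fin M → V, ∀ S : V →ₗ[ℝ] V, RMix k (1 / 10) J S →
      ¬ ∀ j, S (Sum.elim e g j) ∈ AC r (fam J e g) := by
  classical
  borelize V
  by_contra hcon
  push Not at hcon
  have hn : finrank ℝ V = n := by rw [finrank_eq_card_basis e.toBasis, Fintype.card_fin]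
  have hn1 : (1 : ℝ) ≤ n := by exact_mod_cast h1
  have hs1 : (1 : ℝ) ≤ √n := Real.one_le_sqrt.2 hn1
  have hss : √(n : ℝ) * √n = n := Real.mul_self_sqrt (by positivity)
  have hsn : √(n : ℝ) ≤ n := by nlinarith
  have he : ∀ a, ‖e a‖ ≤ 1 := fun a => (e.orthonormal.1 a).le
  set ρ : ℝ := 1 / (20 * (n : ℝ) ^ 2) with hρ
  have hρ0 : 0 < ρ := by positivity
  have hρ1 : (n : ℝ) * (ρ * n) = 1 / 20 := by rw [hρ]; field_simp
  let I : Finset ℤ := Finset.Icc (-(20 * (n : ℤ) ^ 4)) (20 * (n : ℤ) ^ 4)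
  let net : Finset (Fin n → Fin n → ℤ) := Fintype.piFinset fun _ => Fintype.piFinset fun _ => I
  let op : (Fin n → Fin n → ℤ) → V →ₗ[ℝ] V := fun z => cnOp e fun a b => ρ * z a b
  let bad : (Fin n → Fin n → ℤ) → Set (Fin M → V) := fun z =>
    {g | (∀ i, ‖g i‖ ≤ √n) ∧ ∀ i, op z (g i) ∈ AC (2 * r) (fam J e g)}
  let good : Finset (Fin n → Fin n → ℤ) := net.filter fun z => RMix k (1 / 20) J (op z)
  have hI : (I.card : ℝ) = 40 * (n : ℝ) ^ 4 + 1 := by
    have h2 : (I.card : ℤ) = 40 * (n : ℤ) ^ 4 + 1 := by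
      rw [Int.card_Icc_of_le _ _ (by have : (0 : ℤ) ≤ (n : ℤ) ^ 4 := by positivity
                                     linarith)]
      ring
    exact_mod_cast h2
  have hnet : (net.card : ℝ) = (40 * (n : ℝ) ^ 4 + 1) ^ (n ^ 2) := by
    rw [← hI]
    simp only [net, Fintype.card_piFinset, Finset.prod_const, Finset.card_univ, Fintype.card_fin]
    push_cast
    rw [← pow_mul, sq]
  have hcover : (Set.pi Set.univ fun _ : Fin M => Metric.closedBall (0 : V) (√n)) ⊆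
      ⋃ z ∈ good, bad z := by
    intro g hg
    have hg' : ∀ i, ‖g i‖ ≤ √n := fun i => mem_closedBall_zero_iff.1 (hg i (Set.mem_univ i))
    obtain ⟨S, hS, hA⟩ := hcon g
    have hv : ∀ j, ‖Sum.elim e g j‖ ≤ √n := by
      rintro (a | i)
      · exact (he a).trans hs1
      · exact hg' i
    have hf : ∀ j, ‖fam J e g j‖ ≤ √n := by
      rintro (j | j)
      · exact hv j
      · exact (hJ _).trans (hv j)
    have hent : ∀ a b, |inner ℝ (e a) (S (e b))| ≤ (n : ℝ) ^ 2 := fun a b => by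
      obtain ⟨α, hα, hα'⟩ := hA (Sum.inl b)
      have h2 : ‖S (e b)‖ ≤ (∑ j, |α j|) * √n := by
        have := cn_norm_comb_le _ hf α
        rwa [hα'] at this
      have h3 : (∑ j, |α j|) * √n ≤ (n : ℝ) * n :=
        mul_le_mul (hα.trans hrn) hsn (by positivity) (by positivity)
      calc _ ≤ ‖e a‖ * ‖S (e b)‖ := abs_real_inner_le_norm _ _
        _ ≤ 1 * ‖S (e b)‖ := mul_le_mul_of_nonneg_right (he a) (norm_nonneg _)
        _ ≤ _ := by rw [one_mul, sq]; exact h2.trans h3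
    let z : Fin n → Fin n → ℤ := fun a b => ⌊inner ℝ (e a) (S (e b)) / ρ⌋
    have hz : z ∈ net := by
      simp only [net, Fintype.mem_piFinset]
      intro a b
      have h2 := abs_le.1 (hent a b)
      have h3 : inner ℝ (e a) (S (e b)) / ρ = 20 * (n : ℝ) ^ 2 * inner ℝ (e a) (S (e b)) := by
        rw [hρ]; field_simp
      have h4 : (0 : ℝ) ≤ 20 * (n : ℝ) ^ 2 := by positivity
      have h5 := mul_le_mul_of_nonneg_left h2.1 h4
      have h6 := mul_le_mul_of_nonneg_left h2.2 h4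
      refine Finset.mem_Icc.2 ⟨Int.le_floor.2 ?_, ?_⟩
      · push_cast
        rw [h3]
        linarith
      · have h7 : ((z a b : ℤ) : ℝ) ≤ ((20 * (n : ℤ) ^ 4 : ℤ) : ℝ) := by
          refine (Int.floor_le _).trans ?_
          push_cast
          rw [h3]
          linarith
        exact_mod_cast h7
    have hd : ∀ a b, |ρ * (z a b : ℝ) - inner ℝ (e a) (S (e b))| ≤ ρ := fun a b => by
      have h2 := Int.floor_le (inner ℝ (e a) (S (e b)) / ρ)
      have h3 := Int.lt_floor_add_one (inner ℝ (e a) (S (e b)) / ρ)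
      rw [le_div_iff₀ hρ0] at h2
      rw [div_lt_iff₀ hρ0] at h3
      rw [abs_le]
      constructor
      · show -ρ ≤ ρ * (⌊inner ℝ (e a) (S (e b)) / ρ⌋ : ℝ) - _
        linarith
      · show ρ * (⌊inner ℝ (e a) (S (e b)) / ρ⌋ : ℝ) - _ ≤ ρ
        linarith
    have herr := cn_l1_err e (fun a b => ρ * (z a b : ℝ) - inner ℝ (e a) (S (e b))) hρ0.le hd
    have hsplit := cn_op_split e S fun a b => ρ * (z a b : ℝ)
    have hmix : RMix k (1 / 20) J (op z) := by
      refine cn_RMix_near hS fun x => ?_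
      have h2 : op z x - S x = ∑ a, (∑ b, (ρ * (z a b : ℝ) - inner ℝ (e a) (S (e b))) *
          inner ℝ (e b) x) • e a := by
        rw [show op z x = _ from hsplit x]; abel
      rw [h2]
      refine (cn_norm_comb_le _ he _).trans ?_
      rw [mul_one]
      refine (herr x).trans ?_
      rw [← hρ1]
      have h3 : √(n : ℝ) * ‖x‖ ≤ n * ‖x‖ := mul_le_mul_of_nonneg_right hsn (norm_nonneg _)
      calc (n : ℝ) * (ρ * (√n * ‖x‖)) ≤ n * (ρ * (n * ‖x‖)) := by gcongr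
        _ = _ := by ring
    refine Set.mem_biUnion (Finset.mem_coe.2 (Finset.mem_filter.2 ⟨hz, hmix⟩)) ⟨hg', fun i => ?_⟩
    rw [show op z (g i) = _ from hsplit (g i)]
    refine cn_AC_add J e g (hA (Sum.inr i)) _ ((herr (g i)).trans ?_)
    have h3 : √(n : ℝ) * ‖g i‖ ≤ n := by
      calc √(n : ℝ) * ‖g i‖ ≤ √n * √n := mul_le_mul_of_nonneg_left (hg' i) (by positivity)
        _ = n := hss
    calc (n : ℝ) * (ρ * (√n * ‖g i‖)) ≤ n * (ρ * n) := by gcongr
      _ ≤ r := by rw [hρ1]; linarith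
  have hb0 : 0 ≤ bound n M k r := by unfold bound; positivity
  have hlow : (1 : ENNReal) ≤
      volume (Set.pi Set.univ fun _ : Fin M => Metric.closedBall (0 : V) (√n)) := by
    rw [volume_pi_pi]
    exact Finset.one_le_prod' fun _ _ => ball_ge hn
  have hup : volume (⋃ z ∈ good, bad z) ≤
      ENNReal.ofReal ((40 * (n : ℝ) ^ 4 + 1) ^ (n ^ 2) * bound n M k r) := by
    calc volume (⋃ z ∈ good, bad z) ≤ ∑ z ∈ good, volume (bad z) := measure_biUnion_finset_le _ _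
      _ ≤ ∑ _z ∈ good, ENNReal.ofReal (bound n M k r) := Finset.sum_le_sum fun z hz =>
          fub hn h1 e he J (op z) hJ (Finset.mem_filter.1 hz).2 (by linarith)
      _ ≤ ∑ _z ∈ net, ENNReal.ofReal (bound n M k r) :=
          Finset.sum_le_sum_of_subset (Finset.filter_subset _ _)
      _ = _ := by
          rw [Finset.sum_const, nsmul_eq_mul, ← hnet, ENNReal.ofReal_mul (by positivity),
            ENNReal.ofReal_natCast]
  have h2 := hlow.trans ((measure_mono hcover).trans hup)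
  rw [ENNReal.one_le_ofReal] at h2
  linarith

end Pool.Agent.P.MP_f511bc_an.Nb
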