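import Mathlib

/-! Definitions used inside the construction of a space without a basis. -/

open Finset

namespace Pool.Agent.P.MP_f511bc_an.Nb

/-- `r` times the real absolutely convex hull of a finite family. -/
def AC {ι V : Type*} [Fintype ι] [AddCommGroup V] [Module ℝ V] (r : ℝ) (y : ι → V) : Set V :=
  {z | ∃ a : ι → ℝ, ∑ j, |a j| ≤ r ∧ ∑ j, a j • y j = z}

/-- `T` carries a `k`-dimensional subspace, up to a positive form, to an orthogonal one. -/
def Mix {K V : Type*} [RCLike K] [NormedAddCommGroup V] [InnerProductSpace K V] (k : ℕ)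
    (T : V →ₗ[K] V) : Prop :=
  ∃ u w : Fin k → V, Orthonormal K u ∧ Orthonormal K w ∧ (∀ a b, inner K (u a) (w b) = 0) ∧
    ∀ c : Fin k → ℝ, (1 / 10) * ∑ a, c a ^ 2 ≤
      RCLike.re (inner K (∑ a, (c a : K) • u a) (T (∑ a, (c a : K) • w a)))

/-- The real form of `Mix`, with a constant `β` and an auxiliary map `J`. -/
def RMix {V : Type*} [NormedAddCommGroup V] [InnerProductSpace ℝ V] (k : ℕ) (β : ℝ)
    (J S : V →ₗ[ℝ] V) : Prop :=
  ∃ u w : Fin k → V, Orthonormal ℝ u ∧ Orthonormal ℝ w ∧ (∀ a b, inner ℝ (u a) (w b) = 0) ∧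
    (∀ a b, inner ℝ (u a) (J (w b)) = 0) ∧
    ∀ c : Fin k → ℝ, β * ∑ a, c a ^ 2 ≤ inner ℝ (∑ a, c a • u a) (S (∑ a, c a • w a))

/-- The family `(v, J v)` with `v = (e, g)`. -/
def fam {V : Type*} [AddCommGroup V] [Module ℝ V] {n M : ℕ} (J : V →ₗ[ℝ] V) (e : Fin n → V)
    (g : Fin M → V) : (Fin n ⊕ Fin M) ⊕ (Fin n ⊕ Fin M) → V :=
  Sum.elim (Sum.elim e g) fun j => J (Sum.elim e g j)

/-- The volume bound for one point of the net. -/
noncomputable def bound (n M k : ℕ) (r : ℝ) : ℝ :=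
  (Real.exp (2 * n) * (2 ^ (2 * (n + M)) * (80 * r * √n) ^ k / k.factorial)) ^ M

end Pool.Agent.P.MP_f511bc_an.Nb
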