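import Pool.Agent.P.MP_f511bc_an.Nb.Spread

/-! An operator dominated by a Hilbert norm can be cut to a mixing operator. -/

open Finset Module RCLike

namespace Pool.Agent.P.MP_f511bc_an.Nb

variable {K V : Type*} [RCLike K] [NormedAddCommGroup V] [InnerProductSpace K V]
  [FiniteDimensional K V]

omit [FiniteDimensional K V] in
theorem dom_sub (G : Submodule K V) {m : ℕ} (hG : m ≤ finrank K G) :
    ∃ G1 : Submodule K V, G1 ≤ G ∧ finrank K G1 = m := by
  obtain ⟨f, hf⟩ := exists_linearIndependent_of_le_finrank hG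
  refine ⟨Submodule.span K (Set.range (G.subtype ∘ f)), ?_, ?_⟩
  · rw [Submodule.span_le]
    rintro _ ⟨i, rfl⟩
    exact (f i).2
  · exact (finrank_span_eq_card (hf.map' G.subtype G.ker_subtype)).trans (by simp)

theorem dom {H : Type*} [NormedAddCommGroup H] [InnerProductSpace K H] {k : ℕ}
    (hV : 8 * k ≤ finrank K V) (p : V → ℝ) (p1 : ∀ x, p x ≤ 0 → x = 0) (U : V →ₗ[K] V)
    (C : V →ₗ[K] H) {a b : ℝ} (ha : 0 ≤ a) (h1 : ∀ x, p (U x) ≤ a * ‖C x‖)
    (h2 : ∀ x, ‖C x‖ ≤ b * p x) (G : Submodule K V) (hG : 4 * k ≤ finrank K G)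
    (hq : ∀ x ∈ G, (1 / 5) * ‖x‖ ^ 2 ≤ re (inner K x (U x))) :
    ∃ W : V →ₗ[K] V, (∀ x, p (W x) ≤ a * b * p x) ∧ Mix k W := by
  obtain ⟨G1, hle, hd⟩ := dom_sub G hG
  let F : Submodule K H := G1.map C
  have : CompleteSpace F := FiniteDimensional.complete K F
  obtain ⟨s, hs⟩ := (C.submoduleMap G1).exists_rightInverse_of_surjective
    (LinearMap.range_eq_top.2 (C.submoduleMap_surjective G1))
  let Q : V →ₗ[K] F := (F.orthogonalProjectionOnto : H →ₗ[K] F) ∘ₗ C
  let π : V →ₗ[K] V := G1.subtype ∘ₗ s ∘ₗ Q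
  have hπ : ∀ x, C (π x) = (Q x : H) := fun x =>
    congrArg Subtype.val (LinearMap.congr_fun hs (Q x))
  have hQ : ∀ x, ‖(Q x : H)‖ ≤ ‖C x‖ := fun x => F.norm_orthogonalProjectionOnto_apply_le (C x)
  refine ⟨U ∘ₗ π, fun x => ?_, ?_⟩
  · calc p (U (π x)) ≤ a * ‖C (π x)‖ := h1 _
      _ ≤ a * (b * p x) := by
        rw [hπ]
        exact mul_le_mul_of_nonneg_left ((hQ x).trans (h2 x)) ha
      _ = a * b * p x := by ring
  · have hF : finrank K F ≤ 4 * k := hd ▸ Submodule.finrank_map_le C G1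
    have hr : finrank K (LinearMap.range Q) ≤ 4 * k := (Submodule.finrank_le _).trans hF
    have hk := Q.finrank_range_add_finrank_ker
    refine spread (U ∘ₗ π) G1 (LinearMap.ker Q) hd.ge (by omega) (a := 1 / 5) (b := 0)
      (by norm_num) (fun x hx => ?_) (fun x hx => ?_)
    · have e1 : (Q x : H) = C x :=
        Submodule.starProjection_eq_self_iff.2 (Submodule.mem_map_of_mem hx)
      have e2 : U (π x - x) = 0 := by
        refine p1 _ ((h1 _).trans ?_)
        rw [map_sub, hπ, e1, sub_self, norm_zero, mul_zero]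
      rw [map_sub, sub_eq_zero] at e2
      rw [LinearMap.comp_apply, e2]
      exact hq x (hle hx)
    · have e1 : π x = 0 := by
        simp only [π, LinearMap.comp_apply, LinearMap.mem_ker.1 hx, map_zero]
      simp [e1]

end Pool.Agent.P.MP_f511bc_an.Nb
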