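import Pool.Agent.P.MP_f511bc_an.Nb.Defs

/-! Small subspaces of `l_q^N` are close to Euclidean when `q` is close to 2. -/

open Finset Module
open scoped ENNReal

namespace Pool.Agent.P.MP_f511bc_an.Nb

/-- An Auerbach family: vectors of norm at most one with coordinates of norm at most one. -/
theorem auerbach {K G : Type*} [RCLike K] [NormedAddCommGroup G] [NormedSpace K G]
    [FiniteDimensional K G] :
    ∃ v : Fin (finrank K G) → G, (∀ i, ‖v i‖ ≤ 1) ∧
      ∀ x, ∃ a : Fin (finrank K G) → K, (∀ i, ‖a i‖ ≤ ‖x‖) ∧ ∑ i, a i • v i = x := by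
  classical
  set e := Module.finBasis K G with he
  have : ProperSpace G := FiniteDimensional.proper_rclike K G
  have hc : Continuous fun v : Fin (finrank K G) → G => ‖e.det v‖ := by
    refine Continuous.norm ?_
    show Continuous fun v : Fin (finrank K G) → G => Matrix.det (e.toMatrix v)
    refine Continuous.matrix_det ?_
    refine continuous_pi fun i => continuous_pi fun j => ?_
    exact (e.coord i).continuous_of_finiteDimensional.comp (continuous_apply j)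
  have hS : IsCompact (Set.pi Set.univ fun _ : Fin (finrank K G) => Metric.closedBall (0 : G) 1) :=
    isCompact_univ_pi fun _ => isCompact_closedBall _ _
  have hn : ∀ i, ((‖e i‖ : ℝ) : K)⁻¹ ≠ 0 := fun i => by
    have : ‖e i‖ ≠ 0 := norm_ne_zero_iff.2 (e.ne_zero i)
    exact inv_ne_zero (by exact_mod_cast this)
  have hw : (fun i => ((‖e i‖ : ℝ) : K)⁻¹ • e i) ∈
      Set.pi Set.univ fun _ : Fin (finrank K G) => Metric.closedBall (0 : G) 1 := by
    intro i _
    have : ‖e i‖ ≠ 0 := norm_ne_zero_iff.2 (e.ne_zero i)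
    simp [norm_smul, this]
  obtain ⟨v, hv, hmax⟩ := hS.exists_isMaxOn ⟨_, hw⟩ hc.continuousOn
  have hv1 : ∀ i, ‖v i‖ ≤ 1 := fun i => by simpa using hv i (Set.mem_univ i)
  have hpos : 0 < ‖e.det v‖ := by
    refine lt_of_lt_of_le ?_ (hmax hw)
    have h1 := e.det.map_smul_univ (fun i => ((‖e i‖ : ℝ) : K)⁻¹) e
    show 0 < ‖e.det fun i => ((‖e i‖ : ℝ) : K)⁻¹ • e i‖
    rw [h1, e.det_self, norm_pos_iff, smul_eq_mul, mul_one]
    exact prod_ne_zero_iff.2 fun i _ => hn i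
  have hu : IsUnit (e.det v) := isUnit_iff_ne_zero.2 (norm_pos_iff.1 hpos)
  obtain ⟨hli, hsp⟩ := (e.is_basis_iff_det).2 hu
  have key : ∀ i (x : G), ‖x‖ ≤ 1 → ‖(Basis.mk hli hsp.ge).coord i x‖ ≤ 1 := by
    intro i x hx
    have h1 := LinearMap.congr_fun (e.det_smul_mk_coord_eq_det_update hli hsp.ge i) x
    have h2 : e.det v * (Basis.mk hli hsp.ge).coord i x = e.det (Function.update v i x) := h1
    have h3 : Function.update v i x ∈
        Set.pi Set.univ fun _ : Fin (finrank K G) => Metric.closedBall (0 : G) 1 := by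
      intro j _
      rcases eq_or_ne j i with rfl | hj
      · simpa using hx
      · simpa [Function.update_of_ne hj] using hv1 j
    have h4 : ‖e.det (Function.update v i x)‖ ≤ ‖e.det v‖ := hmax h3
    rw [← h2, norm_mul] at h4
    exact le_of_mul_le_mul_left (h4.trans (mul_one _).ge) hpos
  refine ⟨v, hv1, fun x => ⟨fun i => (Basis.mk hli hsp.ge).coord i x, fun i => ?_, ?_⟩⟩
  · rcases eq_or_ne x 0 with rfl | hx
    · simp only [map_zero, norm_zero, le_refl]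
    · have hx' : 0 < ‖x‖ := norm_pos_iff.2 hx
      have h1 := key i (((‖x‖ : ℝ) : K)⁻¹ • x) (by simp [norm_smul, hx'.ne'])
      rw [map_smul, norm_smul, norm_inv, RCLike.norm_ofReal, abs_of_pos hx',
        inv_mul_le_iff₀ hx', mul_one] at h1
      exact h1
  · have h1 := (Basis.mk hli hsp.ge).sum_repr x
    simp only [Basis.mk_apply] at h1
    exact h1

/-- A weight that dominates the unit ball of a small subspace. -/
theorem weight {K : Type*} [RCLike K] (q : ℝ≥0∞) [Fact (1 ≤ q)] (hq : 0 < q.toReal) {N m : ℕ}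
    (F : Submodule K (PiLp q fun _ : Fin N => K)) (hF : finrank K F ≤ m) :
    ∃ f : Fin N → ℝ, (∀ t, 0 ≤ f t) ∧ (∑ t, f t ^ q.toReal) ^ (1 / q.toReal) ≤ m ∧
      ∀ x ∈ F, ∀ t, ‖x t‖ ≤ ‖x‖ * f t := by
  obtain ⟨v, hv, ha⟩ := auerbach (K := K) (G := F)
  refine ⟨fun t => ∑ i, ‖(v i).1 t‖, fun t => sum_nonneg fun _ _ => norm_nonneg _, ?_, ?_⟩
  · let g : Fin (finrank K F) → PiLp q fun _ : Fin N => ℝ :=
      fun i => WithLp.toLp q fun t => ‖(v i).1 t‖
    have hg : ∀ i, ‖g i‖ ≤ 1 := fun i => by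
      have h1 : ‖g i‖ = ‖(v i).1‖ := by
        rw [PiLp.norm_eq_sum hq, PiLp.norm_eq_sum hq]
        simp [g]
      rw [h1]
      exact hv i
    have h2 : ‖∑ i, g i‖ ≤ m := by
      refine (norm_sum_le _ _).trans ((sum_le_sum fun i _ => hg i).trans ?_)
      simpa using hF
    rw [PiLp.norm_eq_sum hq] at h2
    have h3 : ∀ t, ‖(∑ i, g i) t‖ = ∑ i, ‖(v i).1 t‖ := fun t => by
      have h4 : (∑ i, g i) t = ∑ i, ‖(v i).1 t‖ := by simp [g]
      rw [h4, Real.norm_of_nonneg (sum_nonneg fun _ _ => norm_nonneg _)]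
    simp only [h3] at h2
    exact h2
  · intro x hx t
    obtain ⟨a, ha1, ha2⟩ := ha ⟨x, hx⟩
    have h1 : x t = ∑ i, a i * (v i).1 t := by
      have h2 := congrArg (fun y : F => y.1 t) ha2
      simpa using h2.symm
    rw [h1, mul_sum]
    refine (norm_sum_le _ _).trans (sum_le_sum fun i _ => ?_)
    rw [norm_mul]
    exact mul_le_mul_of_nonneg_right (ha1 i) (norm_nonneg _)

theorem hil {K : Type*} [RCLike K] (q : ℝ≥0∞) [Fact (1 ≤ q)] (hq : 2 < q.toReal) {N m : ℕ}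
    (hm : 1 ≤ m) (F : Submodule K (PiLp q fun _ : Fin N => K)) (hF : finrank K F ≤ m) :
    ∃ L : PiLp q (fun _ : Fin N => K) →ₗ[K] EuclideanSpace K (Fin N),
      ∀ x ∈ F, ‖x‖ ≤ ‖L x‖ ∧ ‖L x‖ ≤ (m : ℝ) ^ ((q.toReal - 2) / 2) * ‖x‖ := by
  have hq0 : 0 < q.toReal := by linarith
  obtain ⟨f, hf0, hfm, hf⟩ := weight q hq0 F hF
  set r := q.toReal with hr
  have hr2 : 0 < r - 2 := by linarith
  let L : PiLp q (fun _ : Fin N => K) →ₗ[K] EuclideanSpace K (Fin N) :=
    { toFun := fun x => WithLp.toLp 2 fun t => ((f t ^ ((r - 2) / 2) : ℝ) : K) * x t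
      map_add' := fun x y => by ext t; simp [mul_add]
      map_smul' := fun c x => by ext t; simp [mul_left_comm] }
  have hL : ∀ x, ‖L x‖ ^ 2 = ∑ t, f t ^ (r - 2) * ‖x t‖ ^ 2 := fun x => by
    rw [EuclideanSpace.norm_sq_eq]
    refine sum_congr rfl fun t _ => ?_
    have h1 : L x t = ((f t ^ ((r - 2) / 2) : ℝ) : K) * x t := rfl
    rw [h1, norm_mul, RCLike.norm_ofReal, mul_pow, sq_abs, ← Real.rpow_natCast,
      ← Real.rpow_mul (hf0 t)]
    norm_num
  have hx : ∀ x : PiLp q (fun _ : Fin N => K), ‖x‖ ^ r = ∑ t, ‖x t‖ ^ r := fun x => by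
    rw [PiLp.norm_eq_sum hq0, one_div, Real.rpow_inv_rpow
      (sum_nonneg fun _ _ => Real.rpow_nonneg (norm_nonneg _) _) hq0.ne']
  have hsp : ∀ s : ℝ, 0 ≤ s → s ^ r = s ^ (r - 2) * s ^ 2 := fun s hs => by
    rw [← Real.rpow_natCast, ← Real.rpow_add' hs (by push_cast; linarith)]
    norm_num
  refine ⟨L, fun x hxF => ⟨?_, ?_⟩⟩
  · rcases eq_or_lt_of_le (norm_nonneg x) with h0 | h0
    · rw [← h0]; exact norm_nonneg _
    have h1 : ‖x‖ ^ (r - 2) * ‖x‖ ^ 2 ≤ ‖x‖ ^ (r - 2) * ‖L x‖ ^ 2 := by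
      rw [← hsp _ h0.le, hx, hL, mul_sum]
      refine sum_le_sum fun t _ => ?_
      rw [hsp _ (norm_nonneg _), ← mul_assoc, ← Real.mul_rpow h0.le (hf0 t)]
      exact mul_le_mul_of_nonneg_right
        (Real.rpow_le_rpow (norm_nonneg _) (hf x hxF t) hr2.le) (sq_nonneg _)
    exact (pow_le_pow_iff_left₀ h0.le (norm_nonneg _) two_ne_zero).1
      (le_of_mul_le_mul_left h1 (Real.rpow_pos_of_pos h0 _))
  · have hc : (r / (r - 2)).HolderConjugate (r / 2) := by
      rw [Real.holderConjugate_iff]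
      refine ⟨by rw [lt_div_iff₀ hr2]; linarith, ?_⟩
      field_simp
      ring
    have h1 := Real.inner_le_Lp_mul_Lq_of_nonneg univ hc (f := fun t => f t ^ (r - 2))
      (g := fun t => ‖x t‖ ^ 2) (fun t _ => Real.rpow_nonneg (hf0 t) _) (fun t _ => sq_nonneg _)
    have h2 : ∀ t, (f t ^ (r - 2)) ^ (r / (r - 2)) = f t ^ r := fun t => by
      rw [← Real.rpow_mul (hf0 t), mul_div_cancel₀ _ hr2.ne']
    have h3 : ∀ t, (‖x t‖ ^ 2) ^ (r / 2) = ‖x t‖ ^ r := fun t => by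
      rw [← Real.rpow_natCast, ← Real.rpow_mul (norm_nonneg _)]
      push_cast
      rw [mul_div_cancel₀ _ (two_ne_zero)]
    simp only [h2, h3] at h1
    have hS : 0 ≤ ∑ t, f t ^ r := sum_nonneg fun t _ => Real.rpow_nonneg (hf0 t) _
    have h4 : (∑ t, f t ^ r) ^ (1 / (r / (r - 2))) ≤ ((m : ℝ) ^ ((r - 2) / 2)) ^ 2 := by
      have h5 : 1 / (r / (r - 2)) = 1 / r * (r - 2) := by field_simp
      have h6 : ((m : ℝ) ^ ((r - 2) / 2)) ^ 2 = (m : ℝ) ^ (r - 2) := by
        rw [← Real.rpow_natCast, ← Real.rpow_mul (Nat.cast_nonneg m)]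
        norm_num
      rw [h5, h6, Real.rpow_mul hS]
      exact Real.rpow_le_rpow (Real.rpow_nonneg hS _) hfm hr2.le
    have h7 : (∑ t, ‖x t‖ ^ r) ^ (1 / (r / 2)) = ‖x‖ ^ 2 := by
      have h8 : r * (1 / (r / 2)) = ((2 : ℕ) : ℝ) := by push_cast; field_simp
      rw [← hx, ← Real.rpow_mul (norm_nonneg _), h8, Real.rpow_natCast]
    rw [← hL, h7] at h1
    have h9 : ‖L x‖ ^ 2 ≤ ((m : ℝ) ^ ((r - 2) / 2) * ‖x‖) ^ 2 := by
      rw [mul_pow]
      exact h1.trans (mul_le_mul_of_nonneg_right h4 (sq_nonneg _))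
    exact (pow_le_pow_iff_left₀ (norm_nonneg _) (mul_nonneg
      (Real.rpow_nonneg (Nat.cast_nonneg m) _) (norm_nonneg _)) two_ne_zero).1 h9

end Pool.Agent.P.MP_f511bc_an.Nb
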