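import Pool.Agent.P.MP_f511bc_an.Nb.Defs

/-! Hilbert norms on the components add up to a Hilbert norm. -/

open Finset Module

namespace Pool.Agent.P.MP_f511bc_an.Nb

theorem hsum {K V Z : Type*} [RCLike K] [AddCommGroup V] [Module K V] [NormedAddCommGroup Z]
    [InnerProductSpace K Z] (X G : ℕ → Type*) [∀ i, NormedAddCommGroup (X i)]
    [∀ i, NormedSpace K (X i)] [∀ i, NormedAddCommGroup (G i)] [∀ i, InnerProductSpace K (G i)]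
    (C0 : V →ₗ[K] lp X 2 × Z) (L : ∀ l, X l →ₗ[K] G l) {D : ℝ} (hD : 1 ≤ D)
    (hL : ∀ l x, ‖(C0 x).1 l‖ ≤ ‖L l ((C0 x).1 l)‖ ∧ ‖L l ((C0 x).1 l)‖ ≤ D * ‖(C0 x).1 l‖) :
    ∃ C : V →ₗ[K] WithLp 2 (lp G 2 × Z), ∀ x, ‖C0 x‖ ≤ ‖C x‖ ∧ ‖C x‖ ≤ 2 * D * ‖C0 x‖ := by
  have hD0 : 0 ≤ D := zero_le_one.trans hD
  have hn : ‖(D : K)‖ = D := by rw [RCLike.norm_ofReal, abs_of_nonneg hD0]
  have hle : ∀ x l, ‖L l ((C0 x).1 l)‖ ≤ ‖((D : K) • (C0 x).1) l‖ := fun x l => by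
    rw [lp.coeFn_smul, Pi.smul_apply, norm_smul, hn]
    exact (hL l x).2
  let A : V →ₗ[K] lp G 2 :=
    { toFun := fun x => ⟨fun l => L l ((C0 x).1 l), (lp.memℓp _).mono' (hle x)⟩
      map_add' := fun x y => lp.ext (funext fun l => by
        change L l ((C0 (x + y)).1 l) = L l ((C0 x).1 l) + L l ((C0 y).1 l)
        rw [map_add, Prod.fst_add, lp.coeFn_add, Pi.add_apply, map_add])
      map_smul' := fun c x => lp.ext (funext fun l => by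
        change L l ((C0 (c • x)).1 l) = c • L l ((C0 x).1 l)
        rw [map_smul, Prod.smul_fst, lp.coeFn_smul, Pi.smul_apply, map_smul]) }
  have a1 : ∀ x, ‖(C0 x).1‖ ≤ ‖A x‖ := fun x => lp.norm_mono two_ne_zero fun l => (hL l x).1
  have a2 : ∀ x, ‖A x‖ ≤ D * ‖(C0 x).1‖ := fun x => by
    have : ‖A x‖ ≤ ‖(D : K) • (C0 x).1‖ := lp.norm_mono two_ne_zero (hle x)
    rwa [norm_smul, hn] at this
  refine ⟨(WithLp.linearEquiv 2 K (lp G 2 × Z)).symm.toLinearMap ∘ₗ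
    A.prod (LinearMap.snd K _ _ ∘ₗ C0), fun x => ?_⟩
  change ‖C0 x‖ ≤ ‖WithLp.toLp 2 (A x, (C0 x).2)‖ ∧
    ‖WithLp.toLp 2 (A x, (C0 x).2)‖ ≤ 2 * D * ‖C0 x‖
  constructor
  · rw [Prod.norm_def]
    exact max_le ((a1 x).trans (WithLp.norm_fst_le _ (WithLp.toLp 2 (A x, (C0 x).2))))
      (WithLp.norm_snd_le _ (WithLp.toLp 2 (A x, (C0 x).2)))
  · have h0 := norm_nonneg (C0 x)
    have h1 : ‖A x‖ ≤ D * ‖C0 x‖ :=
      (a2 x).trans (mul_le_mul_of_nonneg_left (norm_fst_le _) hD0)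
    have h2 : ‖(C0 x).2‖ ≤ D * ‖C0 x‖ := (norm_snd_le _).trans (le_mul_of_one_le_left h0 hD)
    refine (pow_le_pow_iff_left₀ (norm_nonneg _) (by positivity) two_ne_zero).1 ?_
    rw [WithLp.prod_norm_sq_eq_of_L2]
    change ‖A x‖ ^ 2 + ‖(C0 x).2‖ ^ 2 ≤ _
    have h3 := pow_le_pow_left₀ (norm_nonneg _) h1 2
    have h4 := pow_le_pow_left₀ (norm_nonneg _) h2 2
    nlinarith [sq_nonneg (D * ‖C0 x‖)]

end Pool.Agent.P.MP_f511bc_an.Nb
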