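import Pool.Agent.P.MP_f511bc_an.Fill

/-! The initial sum projections of a basis. -/

open Finset Module Filter Topology

namespace Pool.Agent.P.MP_f511bc_an.Nb

theorem projs {K E : Type*} [RCLike K] [NormedAddCommGroup E] [NormedSpace K E] [CompleteSpace E]
    (x : ℕ → E) (hx : ∀ y : E, ∃! α : ℕ → K,
      Tendsto (fun n => ∑ i ∈ range n, α i • x i) atTop (𝓝 y)) :
    ∃ (P : ℕ → E →L[K] E) (g : ℕ → E →L[K] K) (B : ℝ), 1 ≤ B ∧ P 0 = 0 ∧
      (∀ j y, P (j + 1) y = P j y + g j y • x j) ∧ (∀ j y, P j (P j y) = P j y) ∧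
      (∀ y, Tendsto (fun j => P j y) atTop (𝓝 y)) ∧ ∀ j y, ‖P j y‖ ≤ B * ‖y‖ := by
  have hb : IsBracketBasis K x := by
    refine ⟨id, strictMono_id, fun v => ?_⟩
    obtain ⟨α, h1, h2⟩ := hx v
    exact ⟨α, (tendsto_add_atTop_iff_nat 1).2 h1,
      fun β hβ => h2 β ((tendsto_add_atTop_iff_nat 1).1 hβ)⟩
  obtain ⟨-, g, -, hg, -⟩ := bracket_coef hb
  have hsum : ∀ (α : ℕ → K) (n i : ℕ), i < n → g i (∑ l ∈ range n, α l • x l) = α i := by
    intro α n i hi
    rw [map_sum, sum_eq_single i]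
    · rw [map_smul, hg, if_pos rfl, smul_eq_mul, mul_one]
    · intro l _ hl
      rw [map_smul, hg, if_neg (Ne.symm hl), smul_zero]
    · intro h
      exact absurd (mem_range.2 hi) h
  let P : ℕ → E →L[K] E := fun j => ∑ i ∈ range j, (g i).smulRight (x i)
  have hP : ∀ j y, P j y = ∑ i ∈ range j, g i y • x i := by
    intro j y
    simp only [P, _root_.sum_apply, ContinuousLinearMap.smulRight_apply]
  have hlim : ∀ y, Tendsto (fun j => P j y) atTop (𝓝 y) := by
    intro y
    obtain ⟨α, h1, -⟩ := hx y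
    have h2 : ∀ i, g i y = α i := by
      intro i
      refine tendsto_nhds_unique (((g i).continuous.tendsto y).comp h1) ?_
      refine tendsto_const_nhds.congr' ?_
      filter_upwards [eventually_gt_atTop i] with n hn
      exact (hsum α n i hn).symm
    simp only [hP, h2]
    exact h1
  obtain ⟨C, hC⟩ := banach_steinhaus (g := P) fun y => bdd_of_tendsto (hlim y)
  refine ⟨P, g, max 1 C, le_max_left _ _, ?_, fun j y => ?_, fun j y => ?_, hlim, fun j y => ?_⟩
  · simp only [P, range_zero, sum_empty]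
  · rw [hP, hP, sum_range_succ]
  · rw [hP j (P j y)]
    conv_rhs => rw [hP]
    refine sum_congr rfl fun i hi => ?_
    rw [hP, hsum _ _ _ (mem_range.1 hi)]
  · exact ((P j).le_opNorm y).trans
      (mul_le_mul_of_nonneg_right ((hC j).trans (le_max_right _ _)) (norm_nonneg _))

end Pool.Agent.P.MP_f511bc_an.Nb
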