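import Pool.Agent.P.MP_f511bc_an.Nb.Chain
import Pool.Agent.P.MP_f511bc_an.Nb.Proj
import Pool.Agent.P.MP_f511bc_an.Nb.HSum

/-! The sum of the blocks and a Hilbert space has no basis. -/

open Finset Module Filter Topology

namespace Pool.Agent.P.MP_f511bc_an.Nb

/-- An abstract form: `E` retracts onto the block `Y` by maps of norm at most one. -/
theorem nobasis_aux {K E Y V H : Type*} [RCLike K] [NormedAddCommGroup E] [NormedSpace K E]
    [NormedAddCommGroup Y] [NormedSpace K Y] [NormedAddCommGroup V] [InnerProductSpace K V]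
    [FiniteDimensional K V] [NormedAddCommGroup H] [InnerProductSpace K H] {k : ℕ} (hk : 1 ≤ k)
    (hV : finrank K V = 12 * k) (e : V ≃ₗ[K] Y) (inn : Y →ₗ[K] E) (pr : E →ₗ[K] Y)
    (hin : ∀ y, ‖inn y‖ ≤ ‖y‖) (hpr : ∀ z, ‖pr z‖ ≤ ‖z‖) (hpi : ∀ y, pr (inn y) = y)
    {D B Λ : ℝ} (hD : 1 ≤ D) (hB : 1 ≤ B) (hΛ : 4 * B ^ 2 * D ≤ Λ)
    (NM : ∀ T : V →ₗ[K] V, (∀ x, ‖e (T x)‖ ≤ Λ * ‖e x‖) → ¬ Mix k T)
    (hC : ∀ C0 : V →ₗ[K] E, (∀ x, pr (C0 x) = 0) →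
      ∃ C : V →ₗ[K] H, ∀ x, ‖C0 x‖ ≤ ‖C x‖ ∧ ‖C x‖ ≤ 2 * D * ‖C0 x‖)
    (x : ℕ → E) (P : ℕ → E →L[K] E) (g : ℕ → E →L[K] K) (h0 : P 0 = 0)
    (hs : ∀ j y, P (j + 1) y = P j y + g j y • x j) (hi : ∀ j y, P j (P j y) = P j y)
    (hl : ∀ y, Tendsto (fun j => P j y) atTop (𝓝 y)) (hb : ∀ j y, ‖P j y‖ ≤ B * ‖y‖) :
    False := by
  have B0 : 0 ≤ B := by linarith
  have hBΛ : B ≤ Λ := by
    nlinarith [mul_nonneg B0 B0, mul_nonneg (mul_nonneg B0 B0) (sub_nonneg.2 hD)]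
  let A : ℕ → V →ₗ[K] E := fun j => (P j : E →ₗ[K] E) ∘ₗ inn ∘ₗ (e : V →ₗ[K] Y)
  have hA : ∀ j v, A j v = P j (inn (e v)) := fun _ _ => rfl
  let T : ℕ → V →ₗ[K] V := fun j => (e.symm : Y →ₗ[K] V) ∘ₗ pr ∘ₗ A j
  have hT : ∀ j v, T j v = e.symm (pr (P j (inn (e v)))) := fun _ _ => rfl
  have heT : ∀ j v, e (T j v) = pr (P j (inn (e v))) := fun j v => by
    rw [hT, e.apply_symm_apply]
  have hAn : ∀ j v, ‖P j (inn (e v))‖ ≤ B * ‖e v‖ := fun j v =>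
    (hb j _).trans (mul_le_mul_of_nonneg_left (hin _) B0)
  have : FiniteDimensional K Y := e.finiteDimensional
  have c1 : Continuous (e.symm : Y →ₗ[K] V) := LinearMap.continuous_of_finiteDimensional _
  have c2 : Continuous pr :=
    (pr.mkContinuous 1 fun z => by rw [one_mul]; exact hpr z).continuous
  refine chain (H := H) hk hV (fun v => ‖e v‖) (fun v => norm_nonneg _) ?_ NM T ?_ ?_ ?_ ?_
    (a := B) (b := 4 * D * B) B0 (by nlinarith) ?_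
  · intro v hv
    exact e.injective (by rw [map_zero]; exact norm_le_zero_iff.1 hv)
  · refine LinearMap.ext fun v => ?_
    rw [hT, h0]
    simp
  · intro j
    refine ⟨(g j : E →ₗ[K] K) ∘ₗ inn ∘ₗ (e : V →ₗ[K] Y), fun v hv => ?_⟩
    have hv' : g j (inn (e v)) = 0 := hv
    rw [hT, hT, hs, hv', zero_smul, add_zero]
  · intro v
    have h1 := ((c1.comp c2).tendsto (inn (e v))).comp (hl (inn (e v)))
    have h2 : ((e.symm : Y →ₗ[K] V) ∘ pr) (inn (e v)) = v := by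
      change e.symm (pr (inn (e v))) = v
      rw [hpi, e.symm_apply_apply]
    rw [h2] at h1
    exact h1
  · intro j v
    rw [heT]
    exact ((hpr _).trans (hAn j v)).trans (mul_le_mul_of_nonneg_right hBΛ (norm_nonneg _))
  · intro j
    let C0 : V →ₗ[K] E := A j - inn ∘ₗ pr ∘ₗ A j
    have hC0 : ∀ v, C0 v = P j (inn (e v)) - inn (pr (P j (inn (e v)))) := fun _ => rfl
    obtain ⟨C, hC1⟩ := hC C0 fun v => by rw [hC0, map_sub, hpi, sub_self]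
    refine ⟨C, fun v => ?_, fun v => ?_⟩
    · have h1 : e (T j v - T j (T j v)) = pr (P j (C0 v)) := by
        rw [map_sub, heT, heT, heT, hC0, map_sub, map_sub, hi]
      rw [h1]
      exact ((hpr _).trans (hb j _)).trans (mul_le_mul_of_nonneg_left (hC1 v).1 B0)
    · have h1 : ‖C0 v‖ ≤ 2 * (B * ‖e v‖) := by
        rw [hC0]
        have h2 := norm_sub_le (P j (inn (e v))) (inn (pr (P j (inn (e v)))))
        have h3 := (hin (pr (P j (inn (e v))))).trans (hpr _)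
        have h4 := hAn j v
        linarith
      have h5 : 2 * D * ‖C0 v‖ ≤ 2 * D * (2 * (B * ‖e v‖)) :=
        mul_le_mul_of_nonneg_left h1 (by linarith)
      have h6 := (hC1 v).2
      linarith

theorem nobasis {K Z : Type*} [RCLike K] [NormedAddCommGroup Z] [InnerProductSpace K Z]
    [CompleteSpace Z] (X G : ℕ → Type*) [∀ i, NormedAddCommGroup (X i)]
    [∀ i, NormedSpace K (X i)] [∀ i, CompleteSpace (X i)] [∀ i, NormedAddCommGroup (G i)]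
    [∀ i, InnerProductSpace K (G i)] (k : ℕ → ℕ) (hk : ∀ i, 1 ≤ k i)
    (e : ∀ i, EuclideanSpace K (Fin (12 * k i)) ≃ₗ[K] X i) (D : ℕ → ℝ) (hD : ∀ i, 1 ≤ D i)
    (NM : ∀ i, ∀ T : EuclideanSpace K (Fin (12 * k i)) →ₗ[K] EuclideanSpace K (Fin (12 * k i)),
      (∀ x, ‖e i (T x)‖ ≤ 4 * (i + 1) * D i * ‖e i x‖) → ¬ Mix (k i) T)
    (hh : ∀ i l, l ≠ i → ∀ F : Submodule K (X l), finrank K F ≤ 12 * k i →
      ∃ L : X l →ₗ[K] G l, ∀ x ∈ F, ‖x‖ ≤ ‖L x‖ ∧ ‖L x‖ ≤ D i * ‖x‖)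
    (x : ℕ → lp X 2 × Z) :
    ¬ ∀ y : lp X 2 × Z, ∃! α : ℕ → K,
      Tendsto (fun n => ∑ i ∈ range n, α i • x i) atTop (𝓝 y) := by
  intro hx
  obtain ⟨P, g, B, hB, h0, hs, hi, hl, hb⟩ := projs x hx
  obtain ⟨i, hiB⟩ := exists_nat_ge (B ^ 2)
  let inn : X i →ₗ[K] lp X 2 × Z := LinearMap.inl K (lp X 2) Z ∘ₗ lp.lsingle 2 i
  let pr : lp X 2 × Z →ₗ[K] X i := lp.evalₗ X 2 i ∘ₗ LinearMap.fst K (lp X 2) Z
  have hinn : ∀ y, inn y = (lp.single 2 i y, 0) := fun _ => rfl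
  have hprv : ∀ z : lp X 2 × Z, pr z = z.1 i := fun _ => rfl
  refine nobasis_aux (H := WithLp 2 (lp G 2 × Z)) (hk i) (by simp) (e i) inn pr ?_ ?_ ?_ (hD i)
    hB (Λ := 4 * (i + 1) * D i) ?_ (NM i) ?_ x P g h0 hs hi hl hb
  · intro y
    rw [hinn, Prod.norm_mk, lp.norm_single (by norm_num), norm_zero]
    exact max_le le_rfl (norm_nonneg _)
  · intro z
    rw [hprv]
    exact (lp.norm_apply_le_norm (by norm_num) z.1 i).trans (norm_fst_le z)
  · intro y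
    rw [hprv, hinn]
    exact lp.single_apply_self 2 i y
  · exact mul_le_mul_of_nonneg_right (by linarith) (by linarith [hD i])
  · intro C0 hz
    have hL : ∀ l, ∃ L : X l →ₗ[K] G l, ∀ v, ‖(C0 v).1 l‖ ≤ ‖L ((C0 v).1 l)‖ ∧
        ‖L ((C0 v).1 l)‖ ≤ D i * ‖(C0 v).1 l‖ := by
      intro l
      by_cases hli : l = i
      · subst hli
        refine ⟨0, fun v => ?_⟩
        have : (C0 v).1 l = 0 := hz v
        rw [this]
        simp
      · let c : EuclideanSpace K (Fin (12 * k i)) →ₗ[K] X l :=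
          lp.evalₗ X 2 l ∘ₗ LinearMap.fst K (lp X 2) Z ∘ₗ C0
        have hr : finrank K (LinearMap.range c) ≤ 12 * k i :=
          (LinearMap.finrank_range_le c).trans (by simp)
        obtain ⟨L, hL⟩ := hh i l hli (LinearMap.range c) hr
        exact ⟨L, fun v => hL _ ⟨v, rfl⟩⟩
    choose L hL using hL
    exact hsum X G C0 L (hD i) hL

end Pool.Agent.P.MP_f511bc_an.Nb
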