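import Pool.Agent.P.MP_f511bc_an.Nb.SumA
import Pool.Agent.P.MP_f511bc_an.Nb.SumB
import Pool.Agent.P.MP_f511bc_an.Nb.Block
import Pool.Agent.P.MP_f511bc_an.Nb.Hil

/-! The recursion on the blocks and the assembly. -/

open Finset Module Filter Topology
open scoped ENNReal

universe u

namespace Pool.Agent.P.MP_f511bc_an.Nb

/-- The exponent of the block that follows blocks of dimension at most `m`. -/
noncomputable def qq (m : ℕ) : ℝ≥0∞ := ENNReal.ofReal (2 + 2 / (m + 1))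

theorem qq_toReal (m : ℕ) : (qq m).toReal = 2 + 2 / (m + 1) :=
  ENNReal.toReal_ofReal (by positivity)

instance qq_fact (m : ℕ) : Fact (1 ≤ qq m) := ⟨by
  have : (0 : ℝ) ≤ 2 / (m + 1) := by positivity
  rw [qq, ← ENNReal.ofReal_one]
  exact ENNReal.ofReal_le_ofReal (by linarith)⟩

theorem qq_gt (m : ℕ) : 2 < (qq m).toReal := by
  have : (0 : ℝ) < 2 / (m + 1) := by positivity
  rw [qq_toReal]; linarith

theorem qq_exp (m : ℕ) : ((qq m).toReal - 2) / 2 = 1 / (m + 1) := by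
  rw [qq_toReal]; ring

theorem root_le_two (m : ℕ) : ((m + 1 : ℕ) : ℝ) ^ (((qq m).toReal - 2) / 2) ≤ 2 := by
  have h1 : ((m + 1 : ℕ) : ℝ) ≤ 2 ^ (m + 1) := by exact_mod_cast (Nat.lt_two_pow_self).le
  have h2 : (1 : ℝ) / (m + 1) = ((m + 1 : ℕ) : ℝ)⁻¹ := by push_cast; rw [one_div]
  rw [qq_exp, h2]
  calc ((m + 1 : ℕ) : ℝ) ^ ((m + 1 : ℕ) : ℝ)⁻¹ ≤ (2 ^ (m + 1) : ℝ) ^ ((m + 1 : ℕ) : ℝ)⁻¹ :=
        Real.rpow_le_rpow (by positivity) h1 (by positivity)
    _ = 2 := Real.pow_rpow_inv_natCast (by norm_num) (Nat.succ_ne_zero m)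

theorem root_le_self (m : ℕ) {a : ℕ} (ha : 1 ≤ a) :
    (a : ℝ) ^ (((qq m).toReal - 2) / 2) ≤ a := by
  have h1 : (1 : ℝ) ≤ a := by exact_mod_cast ha
  have h2 : (1 : ℝ) / (m + 1) ≤ 1 := by
    rw [div_le_one (by positivity)]
    have : (0 : ℝ) ≤ m := m.cast_nonneg
    linarith
  rw [qq_exp]
  simpa using Real.rpow_le_rpow_of_exponent_le h1 h2

theorem norm_ofInj {K A B : Type*} [RCLike K] [AddCommGroup A] [Module K A] [NormedAddCommGroup B]
    [NormedSpace K B] (J : A →ₗ[K] B) (h : Function.Injective J) (x : A) :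
    ‖LinearEquiv.ofInjective J h x‖ = ‖J x‖ := rfl

theorem hil_range {K A : Type*} [RCLike K] [AddCommGroup A] [Module K A] (a : ℕ) {N m : ℕ}
    (J : A →ₗ[K] PiLp (qq a) fun _ : Fin N => K) (hm : 1 ≤ m)
    (F : Submodule K (LinearMap.range J)) (hF : finrank K F ≤ m) {D : ℝ}
    (hb : (m : ℝ) ^ (((qq a).toReal - 2) / 2) ≤ D) :
    ∃ L : LinearMap.range J →ₗ[K] EuclideanSpace K (Fin N),
      ∀ z ∈ F, ‖z‖ ≤ ‖L z‖ ∧ ‖L z‖ ≤ D * ‖z‖ := by
  obtain ⟨L, hL⟩ := hil (qq a) (qq_gt _) hm (F.map (LinearMap.range J).subtype)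
    ((Submodule.finrank_map_le _ _).trans hF)
  refine ⟨L ∘ₗ (LinearMap.range J).subtype, fun z hz => ?_⟩
  obtain ⟨h1, h2⟩ := hL _ (Submodule.mem_map_of_mem hz)
  exact ⟨h1, h2.trans (mul_le_mul_of_nonneg_right hb (norm_nonneg _))⟩

theorem final_of {K : Type u} [RCLike K] (s k N : ℕ → ℕ) (hs : ∀ i, s (i + 1) = 12 * k i)
    (hk0 : ∀ i, s i ≤ k i) (hk1 : ∀ i, 1 ≤ k i)
    (J : ∀ i, EuclideanSpace K (Fin (12 * k i)) →ₗ[K] PiLp (qq (s i)) fun _ : Fin (N i) => K)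
    (hinj : ∀ i, Function.Injective (J i))
    (hNM : ∀ i, ∀ T : EuclideanSpace K (Fin (12 * k i)) →ₗ[K] EuclideanSpace K (Fin (12 * k i)),
      (∀ x, ‖J i (T x)‖ ≤ 4 * (i + 1) * (s i + 2) * ‖J i x‖) → ¬ Mix (k i) T) :
    ∃ (E : Type u) (_ : NormedAddCommGroup E) (_ : NormedSpace K E), CompleteSpace E ∧
      (∀ t : ℕ → ℕ → K, Consistent t → SmallRuns t → ∃ x : ℕ → E, IsTBasis t x) ∧
      ∀ x : ℕ → E, ¬ ∀ y : E, ∃! α : ℕ → K,
        Tendsto (fun n => ∑ i ∈ range n, α i • x i) atTop (𝓝 y) := by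
  have hmono : Monotone s := monotone_nat_of_le_succ fun i => by
    have := hk0 i
    rw [hs]; omega
  have hdim : ∀ i, finrank K (LinearMap.range (J i)) = 12 * k i := fun i => by
    rw [LinearMap.finrank_range_of_inj (hinj i), finrank_euclideanSpace_fin]
  haveI : ∀ i, CompleteSpace (LinearMap.range (J i)) := fun i =>
    FiniteDimensional.complete K (LinearMap.range (J i))
  refine ⟨lp (fun i => LinearMap.range (J i)) 2 × lp (fun _ : ℕ => K) 2, inferInstance,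
    inferInstance, inferInstance, fun t ht hr => ?_, fun x => ?_⟩
  · obtain ⟨y, hy⟩ := bracket (K := K) (fun i => LinearMap.range (J i)) fun i => by
      have := hk1 i
      rw [hdim]; omega
    exact fill ht hr hy (default : HilbertBasis ℕ K (lp (fun _ : ℕ => K) 2)).toSchauderBasis
  · refine nobasis (fun i => LinearMap.range (J i)) (fun i => EuclideanSpace K (Fin (N i))) k hk1
      (fun i => LinearEquiv.ofInjective (J i) (hinj i)) (fun i => (s i : ℝ) + 2)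
      (fun i => ?_) (fun i T hT => hNM i T fun z => ?_) (fun i l hl F hF => ?_) x
    · have : (0 : ℝ) ≤ s i := (s i).cast_nonneg
      linarith
    · have := hT z
      rwa [norm_ofInj, norm_ofInj] at this
    · rcases lt_or_gt_of_ne hl with h | h
      · have h1 : 1 ≤ s (l + 1) := by
          have := hk1 l
          rw [hs]; omega
        have h2 : (s (l + 1) : ℝ) ≤ s i := by exact_mod_cast hmono (Nat.succ_le_of_lt h)
        refine hil_range (s l) (J l) h1 F ((Submodule.finrank_le F).trans ?_) ?_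
        · rw [hdim, hs]
        · linarith [root_le_self (s l) h1]
      · have h2 : s (i + 1) ≤ s l := hmono (Nat.succ_le_of_lt h)
        have h3 : (0 : ℝ) ≤ s i := (s i).cast_nonneg
        rw [hs] at h2
        refine hil_range (s l) (J l) (Nat.succ_le_succ (Nat.zero_le (s l))) F
          (hF.trans (h2.trans (Nat.le_succ _))) ?_
        linarith [root_le_two (s l)]

theorem final (K : Type u) [RCLike K] :
    ∃ (E : Type u) (_ : NormedAddCommGroup E) (_ : NormedSpace K E), CompleteSpace E ∧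
      (∀ t : ℕ → ℕ → K, Consistent t → SmallRuns t → ∃ x : ℕ → E, IsTBasis t x) ∧
      ∀ x : ℕ → E, ¬ ∀ y : E, ∃! α : ℕ → K,
        Tendsto (fun n => ∑ i ∈ range n, α i • x i) atTop (𝓝 y) := by
  have hΛ : ∀ i m : ℕ, (1 : ℝ) ≤ 4 * (i + 1) * (m + 2) := fun i m => by
    have h1 : (0 : ℝ) ≤ i := i.cast_nonneg
    have h2 : (0 : ℝ) ≤ m := m.cast_nonneg
    nlinarith [mul_nonneg h1 h2]
  choose kf Nf Jf hk0 hk1 hinj hNM using
    fun i m : ℕ => block K (qq m) (qq_gt m) (hΛ i m) m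
  obtain ⟨s, hs⟩ : ∃ s : ℕ → ℕ, ∀ i, s (i + 1) = 12 * kf i (s i) :=
    ⟨fun i => Nat.rec 0 (fun j a => 12 * kf j a) i, fun _ => rfl⟩
  exact final_of s (fun i => kf i (s i)) (fun i => Nf i (s i)) hs (fun i => hk0 i (s i))
    (fun i => hk1 i (s i)) (fun i => Jf i (s i)) (fun i => hinj i (s i)) fun i => hNM i (s i)

end Pool.Agent.P.MP_f511bc_an.Nb
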