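import Pool.Agent.P.MP_f511bc_an.Nb.Poly
import Pool.Agent.P.MP_f511bc_an.Nb.Ball

/-! The volume of the bad set of one mixing operator. -/

open Finset Module MeasureTheory

namespace Pool.Agent.P.MP_f511bc_an.Nb

theorem fub_vol_le {V : Type*} [NormedAddCommGroup V] [InnerProductSpace ℝ V] [FiniteDimensional ℝ V]
    [MeasurableSpace V] [BorelSpace V] {α β ι : Type} [Fintype α] [Fintype β] [Fintype ι]
    (b : OrthonormalBasis (α ⊕ β) ℝ V) (A : Set (ι → V)) (hA : MeasurableSet A)
    (B : Set (β → ℝ)) (hB : MeasurableSet B) (c : ENNReal)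
    (h1 : ∀ g ∈ A, ∀ i, (fun j => b.repr (g i) (Sum.inr j)) ∈ B)
    (h2 : ∀ y : ι → β → ℝ, (∀ i, y i ∈ B) → ∃ T : ι → Set (α → ℝ), (∀ i, volume (T i) ≤ c) ∧
      ∀ g ∈ A, (∀ i j, b.repr (g i) (Sum.inr j) = y i j) →
        ∀ i, (fun j => b.repr (g i) (Sum.inl j)) ∈ T i) :
    volume A ≤ (c * volume B) ^ Fintype.card ι := by
  classical
  have m1 : MeasurePreserving (fun x : α ⊕ β → ℝ => b.repr.symm (WithLp.toLp 2 x)) volume volume :=
    b.measurePreserving_repr_symm.comp (PiLp.volume_preserving_toLp _)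
  have m2 : MeasurePreserving (MeasurableEquiv.sumPiEquivProdPi fun _ : α ⊕ β => ℝ).symm
      volume volume := volume_measurePreserving_sumPiEquivProdPi_symm _
  have m3 := m1.comp m2
  have m4 := volume_preserving_pi (ι := ι) fun _ => m3
  have m5 : MeasurePreserving (MeasurableEquiv.arrowProdEquivProdArrow (α → ℝ) (β → ℝ) ι).symm
      volume volume := (volume_measurePreserving_arrowProdEquivProdArrow _ _ _).symm
  have m6 : MeasurePreserving (fun (z : (ι → α → ℝ) × (ι → β → ℝ)) (i : ι) =>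
      b.repr.symm (WithLp.toLp 2 (Sum.elim (z.1 i) (z.2 i)))) volume volume := by
    refine (m4.comp m5).congr ?_ (Filter.Eventually.of_forall fun z => ?_)
    · exact measurable_pi_lambda _ fun i => b.repr.symm.continuous.measurable.comp
        ((PiLp.volume_preserving_toLp _).measurable.comp (measurable_pi_lambda _ fun j => by
          cases j with
          | inl j => exact (measurable_pi_apply j).comp ((measurable_pi_apply i).comp measurable_fst)
          | inr j => exact (measurable_pi_apply j).comp ((measurable_pi_apply i).comp measurable_snd)))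
    · funext i
      refine congrArg (fun x => b.repr.symm (WithLp.toLp 2 x)) (funext fun j => ?_)
      cases j <;> rfl
  rw [← m6.measure_preimage hA.nullMeasurableSet, Measure.volume_eq_prod,
    Measure.prod_apply_symm (m6.measurable hA)]
  refine (lintegral_mono (g := (Set.pi Set.univ fun _ : ι => B).indicator
    fun _ => c ^ Fintype.card ι) fun y => ?_).trans ?_
  · by_cases hy : y ∈ Set.pi Set.univ fun _ : ι => B
    · rw [Set.indicator_of_mem hy]
      obtain ⟨T, hT, h⟩ := h2 y fun i => hy i trivial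
      refine (measure_mono (t := Set.pi Set.univ T) fun x hx i _ => ?_).trans ?_
      · simpa using h _ hx (fun i j => by simp) i
      · rw [volume_pi_pi, ← Finset.card_univ, ← Finset.prod_const]
        exact Finset.prod_le_prod' fun i _ => hT i
    · refine (measure_mono (t := ∅) fun x hx => hy fun i _ => ?_).trans (by simp)
      simpa using h1 _ hx i
  · rw [lintegral_indicator_const (MeasurableSet.univ_pi fun _ => hB), volume_pi_pi,
      Finset.prod_const, Finset.card_univ, mul_pow]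

theorem fub_closed {X ι V : Type*} [TopologicalSpace X] [Fintype ι] [NormedAddCommGroup V]
    [NormedSpace ℝ V] {R : ℝ} (hR : 0 ≤ R) (f : X → V) (y : X → ι → V) (hf : Continuous f)
    (hy : ∀ j, Continuous fun x => y x j) : IsClosed {x | f x ∈ AC R (y x)} := by
  have hC : IsCompact {a : ι → ℝ | ∑ j, |a j| ≤ R} := by
    refine Metric.isCompact_of_isClosed_isBounded (isClosed_le (by fun_prop) continuous_const)
      ((Metric.isBounded_closedBall (x := (0 : ι → ℝ)) (r := R)).subset fun a ha => ?_)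
    rw [mem_closedBall_zero_iff, pi_norm_le_iff_of_nonneg hR]
    exact fun j => (single_le_sum (f := fun j => |a j|) (fun _ _ => abs_nonneg _)
      (mem_univ j)).trans ha
  have : CompactSpace {a : ι → ℝ | ∑ j, |a j| ≤ R} := isCompact_iff_compactSpace.mp hC
  have hZ : IsClosed {p : X × {a : ι → ℝ | ∑ j, |a j| ≤ R} | ∑ j, p.2.1 j • y p.1 j = f p.1} :=
    isClosed_eq (continuous_finsetSum _ fun j _ =>
      ((continuous_apply j).comp (continuous_subtype_val.comp continuous_snd)).smul
        ((hy j).comp continuous_fst)) (hf.comp continuous_fst)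
  have h := isClosedMap_fst_of_compactSpace _ hZ
  have e : {x | f x ∈ AC R (y x)} = Prod.fst ''
      {p : X × {a : ι → ℝ | ∑ j, |a j| ≤ R} | ∑ j, p.2.1 j • y p.1 j = f p.1} := by
    ext x
    constructor
    · rintro ⟨a, ha, h⟩
      exact ⟨(x, ⟨a, ha⟩), h, rfl⟩
    · rintro ⟨⟨x, a⟩, h, rfl⟩
      exact ⟨a.1, a.2, h⟩
  rwa [e]

theorem fub {V : Type*} [NormedAddCommGroup V] [InnerProductSpace ℝ V] [FiniteDimensional ℝ V]
    [MeasurableSpace V] [BorelSpace V] {n M k : ℕ} (hn : finrank ℝ V = n) (h1 : 1 ≤ n)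
    (e : Fin n → V) (he : ∀ a, ‖e a‖ ≤ 1) (J S : V →ₗ[ℝ] V) (hJ : ∀ x, ‖J x‖ ≤ ‖x‖)
    (hm : RMix k (1 / 20) J S) {r : ℝ} (hr : 0 ≤ r) :
    volume {g : Fin M → V | (∀ i, ‖g i‖ ≤ √n) ∧ ∀ i, S (g i) ∈ AC (2 * r) (fam J e g)} ≤
      ENNReal.ofReal (bound n M k r) := by
  classical
  obtain ⟨u, w, hu, hw, huw, huJ, hc⟩ := hm
  have hk : k ≤ n := by simpa [hn] using hw.linearIndependent.fintype_card_le_finrank
  obtain ⟨b, hb⟩ := Orthonormal.exists_orthonormalBasis_extension_of_card_eq (𝕜 := ℝ) (E := V)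
    (ι := Fin k ⊕ Fin (n - k)) (by simp [hn, hk]) (v := Sum.elim w 0) (s := Set.range Sum.inl) (by
      refine ⟨?_, ?_⟩
      · rintro ⟨_, a, rfl⟩
        exact hw.1 a
      · rintro ⟨_, a, rfl⟩ ⟨_, c, rfl⟩ h
        exact hw.2 fun hac => h (by rw [hac]))
  have hbw : ∀ a, b (Sum.inl a) = w a := fun a => hb _ ⟨a, rfl⟩
  obtain ⟨U, hU⟩ : ∃ U : V →ₗ[ℝ] EuclideanSpace ℝ (Fin k), ∀ x a, U x a = inner ℝ (u a) x :=
    ⟨(WithLp.linearEquiv 2 ℝ (Fin k → ℝ)).symm.toLinearMap ∘ₗ
      LinearMap.pi fun a => (innerSL ℝ (u a)).toLinearMap, fun _ _ => rfl⟩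
  obtain ⟨W, hW⟩ : ∃ W : EuclideanSpace ℝ (Fin k) →ₗ[ℝ] V, ∀ c, W c = ∑ a, c a • w a :=
    ⟨Fintype.linearCombination ℝ w ∘ₗ (WithLp.linearEquiv 2 ℝ (Fin k → ℝ)).toLinearMap,
      fun _ => rfl⟩
  have hUn : ∀ x, ‖U x‖ ≤ ‖x‖ := fun x => by
    refine abs_le_of_sq_le_sq' ?_ (norm_nonneg x) |>.2
    rw [EuclideanSpace.norm_sq_eq]
    simpa only [hU] using hu.sum_inner_products_le (s := univ) x
  have hUW : ∀ c, U (W c) = 0 := fun c => by
    ext a
    simp [hU, hW, huw]
  have hUJW : ∀ c, U (J (W c)) = 0 := fun c => by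
    ext a
    simp [hU, hW, huJ]
  have hmn : ∀ c, ‖c‖ ≤ 20 * ‖(U ∘ₗ S ∘ₗ W) c‖ := fun c => by
    have h2 : inner ℝ c ((U ∘ₗ S ∘ₗ W) c) = inner ℝ (∑ a, c a • u a) (S (∑ a, c a • w a)) := by
      rw [← hW, PiLp.inner_apply, sum_inner]
      refine sum_congr rfl fun a _ => ?_
      rw [LinearMap.comp_apply, LinearMap.comp_apply, hU, real_inner_smul_left, mul_comm]
      rfl
    have h3 := hc fun a => c a
    rw [← h2, ← EuclideanSpace.real_norm_sq_eq] at h3
    have h4 := real_inner_le_norm c ((U ∘ₗ S ∘ₗ W) c)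
    rcases (norm_nonneg c).eq_or_lt with h0 | h0
    · rw [← h0]; positivity
    · nlinarith
  have hinj : Function.Injective (U ∘ₗ S ∘ₗ W) := (injective_iff_map_eq_zero _).2 fun c h =>
    norm_le_zero_iff.1 (by simpa [h] using hmn c)
  obtain ⟨m, hm⟩ : ∃ m : EuclideanSpace ℝ (Fin k) ≃ₗ[ℝ] EuclideanSpace ℝ (Fin k),
      ∀ c, m c = U (S (W c)) := ⟨LinearEquiv.ofInjectiveEndo _ hinj, fun _ => rfl⟩
  have hmi : ∀ z, ‖m.symm z‖ ≤ 20 * ‖z‖ := fun z => by
    have := hmn (m.symm z)
    rwa [LinearMap.comp_apply, LinearMap.comp_apply, ← hm, m.apply_symm_apply] at this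
  have hs : (1 : ℝ) ≤ √n := Real.one_le_sqrt.2 (by exact_mod_cast h1)
  have hfc : ∀ j, Continuous fun g : Fin M → V => fam J e g j := fun j => by
    have hJc := J.continuous_of_finiteDimensional
    rcases j with (j | j) | (j | j)
    · exact continuous_const
    · exact continuous_apply j
    · exact continuous_const (y := J (e j))
    · exact hJc.comp (continuous_apply j)
  have hA : MeasurableSet {g : Fin M → V | (∀ i, ‖g i‖ ≤ √n) ∧
      ∀ i, S (g i) ∈ AC (2 * r) (fam J e g)} := by
    have c1 : IsClosed (⋂ i, {g : Fin M → V | ‖g i‖ ≤ √n}) :=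
      isClosed_iInter fun i => isClosed_le (by fun_prop) continuous_const
    have c2 : IsClosed (⋂ i, {g : Fin M → V | S (g i) ∈ AC (2 * r) (fam J e g)}) :=
      isClosed_iInter fun i => fub_closed (by positivity) _ _
        (S.continuous_of_finiteDimensional.comp (continuous_apply i)) hfc
    have e3 : {g : Fin M → V | (∀ i, ‖g i‖ ≤ √n) ∧ ∀ i, S (g i) ∈ AC (2 * r) (fam J e g)} =
        (⋂ i, {g : Fin M → V | ‖g i‖ ≤ √n}) ∩
          ⋂ i, {g : Fin M → V | S (g i) ∈ AC (2 * r) (fam J e g)} := by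
      ext g
      simp only [Set.mem_ofPred_eq, Set.mem_inter_iff, Set.mem_iInter]
    exact e3 ▸ (c1.inter c2).measurableSet
  have hbr : Orthonormal ℝ fun j : Fin (n - k) => b (Sum.inr j) :=
    b.orthonormal.comp _ Sum.inr_injective
  have hG : ∀ y : Fin (n - k) → ℝ, ‖∑ j, y j • b (Sum.inr j)‖ = ‖WithLp.toLp 2 y‖ := fun y => by
    refine (sq_eq_sq₀ (norm_nonneg _) (norm_nonneg _)).1 ?_
    rw [EuclideanSpace.real_norm_sq_eq, ← real_inner_self_eq_norm_sq, hbr.inner_sum]
    simp [sq]
  have hg : ∀ x : V, x = W (WithLp.toLp 2 fun a => b.repr x (Sum.inl a)) +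
      ∑ j, b.repr x (Sum.inr j) • b (Sum.inr j) := fun x => by
    conv_lhs => rw [← b.sum_repr x]
    simp [hW, hbw]
  refine (fub_vol_le b _ hA
    (WithLp.toLp 2 ⁻¹' Metric.closedBall (0 : EuclideanSpace ℝ (Fin (n - k))) √n)
    ((PiLp.volume_preserving_toLp _).measurable measurableSet_closedBall)
    (ENNReal.ofReal (2 ^ (2 * (n + M)) * (80 * r * √n) ^ k / k.factorial)) ?_ ?_).trans ?_
  · intro g hg' i
    refine mem_closedBall_zero_iff.2 (le_trans ?_ (hg'.1 i))
    refine abs_le_of_sq_le_sq' ?_ (norm_nonneg _) |>.2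
    rw [EuclideanSpace.norm_sq_eq]
    simpa only [b.repr_apply_apply] using hbr.sum_inner_products_le (s := univ) (g i)
  · intro y hy
    set G : Fin M → V := fun i => ∑ j, y i j • b (Sum.inr j) with hGd
    have hGn : ∀ i, ‖G i‖ ≤ √n := fun i => (hG _).trans_le (mem_closedBall_zero_iff.1 (hy i))
    refine ⟨fun i => WithLp.toLp 2 ⁻¹' ((fun c => c + m.symm (U (S (G i)))) ⁻¹'
      AC (2 * r) fun j => m.symm (U (fam J e G j))), fun i => ?_, fun g hg' hgy i => ?_⟩
    · refine ((PiLp.volume_preserving_toLp _).measure_preimage_le _).trans ?_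
      rw [measure_preimage_add_right]
      refine (poly _ (L := 20 * √n) (by positivity) (by positivity) fun j => ?_).trans
        (le_of_eq ?_)
      · refine (hmi _).trans (mul_le_mul_of_nonneg_left ((hUn _).trans ?_) (by norm_num))
        rcases j with (j | j) | (j | j)
        · exact (he j).trans hs
        · exact hGn j
        · exact (hJ _).trans ((he j).trans hs)
        · exact (hJ _).trans (hGn j)
      · rw [finrank_euclideanSpace_fin, show 2 * (2 * r) * (20 * √(n : ℝ)) = 80 * r * √n by ring]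
        simp [two_mul]
    · have hgi : ∀ i, g i = W (WithLp.toLp 2 fun a => b.repr (g i) (Sum.inl a)) + G i :=
        fun i => by simpa only [hgy] using hg (g i)
      have hf : ∀ j, U (fam J e g j) = U (fam J e G j) := fun j => by
        rcases j with (j | j) | (j | j)
        · rfl
        · show U (g j) = U (G j)
          rw [hgi j, map_add, hUW, zero_add]
        · rfl
        · show U (J (g j)) = U (J (G j))
          rw [hgi j, map_add, map_add, hUJW, zero_add]
      obtain ⟨a, ha, hS⟩ := hg'.2 i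
      refine ⟨a, ha, m.injective ?_⟩
      have h5 := congrArg U hS
      rw [hgi i, map_add, map_add, ← hm, map_sum] at h5
      simp only [map_smul, hf] at h5
      simp only [map_sum, map_smul, map_add, LinearEquiv.apply_symm_apply, h5]
  · rw [bound, ENNReal.ofReal_pow (by positivity), Fintype.card_fin, mul_comm (Real.exp _),
      ENNReal.ofReal_mul (by positivity)]
    refine pow_le_pow_left' (mul_le_mul_right (((PiLp.volume_preserving_toLp _).measure_preimage_le
      _).trans (ball_le (by simp))) _) _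

end Pool.Agent.P.MP_f511bc_an.Nb
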