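import Pool.Agent.P.MP_f511bc_an.Nb.Defs

/-! Volume of an absolutely convex hull. -/

open Finset Module MeasureTheory

namespace Pool.Agent.P.MP_f511bc_an.Nb

variable {W : Type*} [NormedAddCommGroup W] [InnerProductSpace ℝ W] [FiniteDimensional ℝ W]
  [MeasurableSpace W] [BorelSpace W]

/-- One step of Caratheodory's reduction for the `l1` norm. -/
theorem poly_step {ι V : Type*} [DecidableEq ι] [AddCommGroup V] [Module ℝ V] (y : ι → V)
    (s : Finset ι) (a g : ι → ℝ) (hg : ∑ j ∈ s, g j • y j = 0)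
    (hφ : 0 ≤ ∑ j ∈ s, (if 0 ≤ a j then g j else -g j))
    (hne : ∃ j ∈ s, g j ≠ 0) :
    ∃ i ∈ s, ∃ b : ι → ℝ, ∑ j ∈ s.erase i, |b j| ≤ ∑ j ∈ s, |a j| ∧
      ∑ j ∈ s.erase i, b j • y j = ∑ j ∈ s, a j • y j := by
  set h : ι → ℝ := fun j => if 0 ≤ a j then g j else -g j with hh
  have hpos : (s.filter fun j => 0 < h j).Nonempty := by
    by_contra hc
    have hle : ∀ j ∈ s, h j ≤ 0 := fun j hj =>
      not_lt.1 fun hp => hc ⟨j, mem_filter.2 ⟨hj, hp⟩⟩
    have h0 : ∑ j ∈ s, h j = 0 := le_antisymm (sum_nonpos hle) hφ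
    obtain ⟨j, hj, hgj⟩ := hne
    have := (sum_eq_zero_iff_of_nonpos hle).1 h0 j hj
    simp only [hh] at this
    split_ifs at this
    · exact hgj this
    · exact hgj (neg_eq_zero.1 this)
  obtain ⟨i, hi, hmin⟩ := exists_min_image _ (fun j => |a j| / h j) hpos
  obtain ⟨his, hhi⟩ := mem_filter.1 hi
  set t := |a i| / h i with ht
  have ht0 : 0 ≤ t := div_nonneg (abs_nonneg _) hhi.le
  have hkey : ∀ j ∈ s, 0 ≤ |a j| - t * h j := by
    intro j hj
    rcases lt_or_ge 0 (h j) with hp | hn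
    · have := hmin j (mem_filter.2 ⟨hj, hp⟩)
      have := (le_div_iff₀ hp).1 this
      linarith
    · have := mul_nonneg ht0 (neg_nonneg.2 hn)
      have := abs_nonneg (a j)
      linarith
  have habs : ∀ j ∈ s, |a j - t * g j| = |a j| - t * h j := by
    intro j hj
    have hk := hkey j hj
    by_cases haj : 0 ≤ a j
    · have e : h j = g j := by simp only [hh, if_pos haj]
      rw [e, abs_of_nonneg haj] at hk
      rw [e, abs_of_nonneg haj, abs_of_nonneg hk]
    · have e : h j = -g j := by simp only [hh, if_neg haj]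
      rw [e, abs_of_neg (not_le.1 haj)] at hk
      rw [e, abs_of_neg (not_le.1 haj), abs_of_nonpos (by linarith)]
      ring
  have hi0 : a i - t * g i = 0 := by
    rw [← abs_eq_zero, habs i his, ht, div_mul_cancel₀ _ hhi.ne', sub_self]
  refine ⟨i, his, fun j => a j - t * g j, ?_, ?_⟩
  · rw [sum_erase s (by simp only [hi0, abs_zero]), sum_congr rfl habs, sum_sub_distrib,
      ← mul_sum]
    have := mul_nonneg ht0 hφ
    linarith
  · rw [sum_erase s (by simp only [hi0, zero_smul])]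
    simp only [sub_smul, mul_smul, sum_sub_distrib, ← smul_sum, hg, smul_zero, sub_zero]

/-- Caratheodory's reduction: at most `finrank` vectors are needed. -/
theorem poly_reduce {ι V : Type*} [DecidableEq ι] [AddCommGroup V] [Module ℝ V]
    [FiniteDimensional ℝ V] (y : ι → V) (r : ℝ) (z : V) (n : ℕ) :
    ∀ (s : Finset ι), s.card = n → (∃ a : ι → ℝ, ∑ j ∈ s, |a j| ≤ r ∧ ∑ j ∈ s, a j • y j = z) →
      ∃ s' : Finset ι, s'.card ≤ finrank ℝ V ∧
        ∃ a : ι → ℝ, ∑ j ∈ s', |a j| ≤ r ∧ ∑ j ∈ s', a j • y j = z := by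
  induction n with
  | zero => exact fun s hs h => ⟨s, by omega, h⟩
  | succ n ih =>
    intro s hs h
    by_cases hc : s.card ≤ finrank ℝ V
    · exact ⟨s, hc, h⟩
    obtain ⟨a, ha, hz⟩ := h
    have hdep : ¬ LinearIndependent ℝ (fun j : s => y j) := fun hli =>
      hc (by simpa using hli.fintype_card_le_finrank)
    obtain ⟨g, hg, hne⟩ : ∃ g : ι → ℝ, ∑ j ∈ s, g j • y j = 0 ∧ ∃ j ∈ s, g j ≠ 0 := by
      obtain ⟨g, hg, j, hj⟩ := Fintype.not_linearIndependent_iff.1 hdep
      refine ⟨fun j => if h : j ∈ s then g ⟨j, h⟩ else 0, ?_, j, j.2, by simpa using hj⟩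
      rw [← hg, ← sum_coe_sort s]
      exact sum_congr rfl fun j _ => by simp only [j.2, dif_pos]
    have hstep : ∃ i ∈ s, ∃ b : ι → ℝ, ∑ j ∈ s.erase i, |b j| ≤ ∑ j ∈ s, |a j| ∧
        ∑ j ∈ s.erase i, b j • y j = ∑ j ∈ s, a j • y j := by
      rcases le_total 0 (∑ j ∈ s, (if 0 ≤ a j then g j else -g j)) with hφ | hφ
      · exact poly_step y s a g hg hφ hne
      · refine poly_step y s a (fun j => -g j) ?_ ?_ ?_
        · simp only [neg_smul, sum_neg_distrib, hg, neg_zero]
        · have : ∑ j ∈ s, (if 0 ≤ a j then -g j else - -g j) =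
              -∑ j ∈ s, (if 0 ≤ a j then g j else -g j) := by
            rw [← sum_neg_distrib]
            exact sum_congr rfl fun j _ => by split_ifs <;> rfl
          rw [this]
          linarith
        · obtain ⟨j, hj, hgj⟩ := hne
          exact ⟨j, hj, neg_ne_zero.2 hgj⟩
    obtain ⟨i, hi, b, hb, hbz⟩ := hstep
    exact ih (s.erase i) (by rw [card_erase_of_mem hi, hs]; rfl) ⟨b, hb.trans ha, hbz.trans hz⟩

/-- The volume of the `l1` ball. -/
theorem poly_l1 (n : ℕ) {r : ℝ} (hr : 0 ≤ r) :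
    volume {x : Fin n → ℝ | ∑ i, |x i| ≤ r} ≤ ENNReal.ofReal ((2 * r) ^ n / n.factorial) := by
  rcases n with - | n
  · refine (measure_mono (Set.subset_univ _)).trans ?_
    rw [volume_pi, Measure.pi_univ]
    simp
  · have h := volume_sum_rpow_le (ι := Fin (n + 1)) (p := 1) le_rfl r
    have e1 : Real.Gamma (1 / 1 + 1) = 1 := by
      rw [div_one, Real.Gamma_add_one one_ne_zero, Real.Gamma_one, mul_one]
    have e2 : Real.Gamma ((Fintype.card (Fin (n + 1)) : ℝ) / 1 + 1) = (n + 1).factorial := by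
      rw [div_one, Fintype.card_fin, Real.Gamma_nat_eq_factorial]
    rw [e1, e2, Fintype.card_fin] at h
    simp only [Real.rpow_one, div_one, mul_one] at h
    rw [h, ← ENNReal.ofReal_pow hr, ← ENNReal.ofReal_mul (pow_nonneg hr _)]
    refine le_of_eq (congrArg _ ?_)
    rw [mul_pow]
    ring

/-- The case of exactly `finrank` vectors. -/
theorem poly_full (v : Fin (finrank ℝ W) → W) {L r : ℝ} (hL : 0 ≤ L) (hr : 0 ≤ r)
    (hv : ∀ j, ‖v j‖ ≤ L) :
    volume (AC r v) ≤ ENNReal.ofReal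
      ((2 * r * L) ^ finrank ℝ W / (finrank ℝ W).factorial) := by
  set e := stdOrthonormalBasis ℝ W with he
  set f : W →ₗ[ℝ] W := e.toBasis.constr ℝ v with hf
  set B : Set (Fin (finrank ℝ W) → ℝ) := {x | ∑ i, |x i| ≤ r} with hB
  have hBm : MeasurableSet B := (isClosed_le (by fun_prop) continuous_const).measurableSet
  have hmp : MeasurePreserving (fun x : W => WithLp.ofLp (e.repr x)) volume volume :=
    (PiLp.volume_preserving_ofLp _).comp e.measurePreserving_repr
  have hsub : AC r v ⊆ f '' ((fun x : W => WithLp.ofLp (e.repr x)) ⁻¹' B) := by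
    rintro z ⟨a, ha, rfl⟩
    refine ⟨e.repr.symm (WithLp.toLp 2 a), ?_, ?_⟩
    · simpa [hB] using ha
    · rw [← e.sum_repr_symm, map_sum]
      refine sum_congr rfl fun j _ => ?_
      rw [map_smul]
      congr 1
      exact e.toBasis.constr_basis ℝ v j
  have hdet : |LinearMap.det f| ≤ L ^ finrank ℝ W := by
    have : Fact (finrank ℝ W = finrank ℝ W) := ⟨rfl⟩
    have h1 := e.toBasis.orientation.volumeForm_robust' e v
    have h2 := e.toBasis.orientation.abs_volumeForm_apply_le v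
    have h3 : e.toBasis.det v = LinearMap.det f := by
      have := e.toBasis.det_comp f e.toBasis
      rw [Basis.det_self, mul_one] at this
      rw [← this]
      congr 1
      funext j
      exact (e.toBasis.constr_basis ℝ v j).symm
    rw [← h3, ← h1]
    refine h2.trans ?_
    refine (prod_le_prod (fun j _ => norm_nonneg _) fun j _ => hv j).trans ?_
    rw [prod_const, card_univ, Fintype.card_fin]
  refine (measure_mono hsub).trans ?_
  rw [Measure.addHaar_image_linearMap, hmp.measure_preimage hBm.nullMeasurableSet]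
  refine (mul_le_mul' (ENNReal.ofReal_le_ofReal hdet) (poly_l1 _ hr)).trans ?_
  rw [← ENNReal.ofReal_mul (pow_nonneg hL _)]
  refine le_of_eq (congrArg _ ?_)
  rw [mul_pow (2 * r) L]
  ring

/-- A sum supported on the range of an embedding. -/
theorem poly_sum {α β N : Type*} [Fintype α] [Fintype β] [AddCommMonoid N] (φ : α ↪ β)
    (F : β → N) (hF : ∀ i, (¬ ∃ j, φ j = i) → F i = 0) : ∑ i, F i = ∑ j, F (φ j) := by
  rw [← sum_map univ φ F]
  refine (sum_subset (subset_univ _) fun i _ hi => hF i ?_).symm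
  rintro ⟨j, rfl⟩
  exact hi (mem_map_of_mem φ (mem_univ j))

/-- At most `finrank` vectors. -/
theorem poly_small {ι : Type*} (y : ι → W) {L r : ℝ} (hL : 0 ≤ L) (hr : 0 ≤ r)
    (hy : ∀ j, ‖y j‖ ≤ L) (s : Finset ι) (hs : s.card ≤ finrank ℝ W) :
    volume {z | ∃ a : ι → ℝ, ∑ j ∈ s, |a j| ≤ r ∧ ∑ j ∈ s, a j • y j = z} ≤ ENNReal.ofReal
      ((2 * r * L) ^ finrank ℝ W / (finrank ℝ W).factorial) := by
  classical
  obtain ⟨φ⟩ : Nonempty (s ↪ Fin (finrank ℝ W)) :=
    Function.Embedding.nonempty_of_card_le (by simpa using hs)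
  refine le_trans (measure_mono ?_)
    (poly_full (Function.extend φ (fun j : s => y j) 0) hL hr fun i => ?_)
  · rintro z ⟨a, ha, rfl⟩
    refine ⟨Function.extend φ (fun j : s => a j) 0, ?_, ?_⟩
    · rw [poly_sum φ _ fun i hi => by rw [Function.extend_apply' _ _ _ hi]; simp]
      simp only [φ.injective.extend_apply]
      rw [sum_coe_sort s fun j => |a j|]
      exact ha
    · rw [poly_sum φ _ fun i hi => by rw [Function.extend_apply' _ _ _ hi]; simp]
      simp only [φ.injective.extend_apply]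
      exact sum_coe_sort s fun j => a j • y j
  · by_cases hi : ∃ j, φ j = i
    · obtain ⟨j, rfl⟩ := hi
      rw [φ.injective.extend_apply]
      exact hy j
    · rw [Function.extend_apply' _ _ _ hi]
      simpa using hL

theorem poly {ι : Type*} [Fintype ι] (y : ι → W) {L r : ℝ} (hL : 0 ≤ L) (hr : 0 ≤ r)
    (hy : ∀ j, ‖y j‖ ≤ L) :
    volume (AC r y) ≤ ENNReal.ofReal
      (2 ^ Fintype.card ι * (2 * r * L) ^ finrank ℝ W / (finrank ℝ W).factorial) := by
  classical
  set S : Finset (Finset ι) := univ.filter fun s => s.card ≤ finrank ℝ W with hS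
  have hsub : AC r y ⊆ ⋃ s ∈ S,
      {z | ∃ a : ι → ℝ, ∑ j ∈ s, |a j| ≤ r ∧ ∑ j ∈ s, a j • y j = z} := by
    intro z hz
    obtain ⟨s, hs, h⟩ := poly_reduce y r z _ univ rfl hz
    exact Set.mem_biUnion (mem_coe.2 (mem_filter.2 ⟨mem_univ s, hs⟩)) h
  refine (measure_mono hsub).trans ((measure_biUnion_finset_le _ _).trans ?_)
  refine (sum_le_card_nsmul _ _ _ fun s hs => poly_small y hL hr hy s (mem_filter.1 hs).2).trans ?_
  have hc : S.card ≤ 2 ^ Fintype.card ι := by
    rw [← Fintype.card_finset]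
    exact card_le_univ S
  rw [nsmul_eq_mul, mul_div_assoc, ENNReal.ofReal_mul (by positivity)]
  refine mul_le_mul' ?_ le_rfl
  rw [← ENNReal.ofReal_natCast]
  exact ENNReal.ofReal_le_ofReal (by exact_mod_cast hc)

end Pool.Agent.P.MP_f511bc_an.Nb
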