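import Pool.Agent.P.MP_f511bc_an.Nb.Defs

/-! Spectral subspaces. -/

open Finset Module RCLike

namespace Pool.Agent.P.MP_f511bc_an.Nb

variable {K V : Type*} [RCLike K] [NormedAddCommGroup V] [InnerProductSpace K V]
  [FiniteDimensional K V]

omit [FiniteDimensional K V] in
theorem coord_sub {n : ℕ} (b : OrthonormalBasis (Fin n) K V) (A : Finset (Fin n)) :
    ∃ E : Submodule K V, finrank K E = A.card ∧ ∀ x ∈ E, ∀ i ∉ A, inner K (b i) x = 0 := by
  refine ⟨Submodule.span K (Set.range fun i : A => b i), ?_, ?_⟩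
  · exact (finrank_span_eq_card
      (b.orthonormal.linearIndependent.comp _ Subtype.val_injective)).trans (by simp)
  · intro x hx i hi
    induction hx using Submodule.span_induction with
    | mem y hy =>
      obtain ⟨j, rfl⟩ := hy
      exact b.orthonormal.2 fun h => hi (h ▸ j.2)
    | zero => simp
    | add y z _ _ hy hz => rw [inner_add_right, hy, hz, add_zero]
    | smul c y _ hy => rw [inner_smul_right, hy, mul_zero]

theorem spec_base (S : V →ₗ[K] V) (hS : S.IsSymmetric) :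
    ∃ (b : OrthonormalBasis (Fin (finrank K V)) K V) (l : Fin (finrank K V) → ℝ), ∀ x,
      re (inner K x (S x)) = ∑ i, l i * ‖inner K (b i) x‖ ^ 2 ∧
      ‖S x‖ ^ 2 = ∑ i, l i ^ 2 * ‖inner K (b i) x‖ ^ 2 := by
  refine ⟨hS.eigenvectorBasis rfl, hS.eigenvalues rfl, fun x => ?_⟩
  have h : ∀ i, inner K (hS.eigenvectorBasis rfl i) (S x) =
      (hS.eigenvalues rfl i : K) * inner K (hS.eigenvectorBasis rfl i) x := by
    intro i
    rw [← hS, hS.apply_eigenvectorBasis, inner_smul_left, conj_ofReal]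
  constructor
  · rw [← (hS.eigenvectorBasis rfl).sum_inner_mul_inner x (S x), map_sum]
    refine sum_congr rfl fun i _ => ?_
    rw [h, mul_left_comm, re_ofReal_mul, ← inner_conj_symm x, RCLike.conj_mul, ← ofReal_pow,
      ofReal_re]
  · rw [← (hS.eigenvectorBasis rfl).sum_sq_norm_inner_right (S x)]
    refine sum_congr rfl fun i _ => ?_
    rw [h, norm_mul, mul_pow, norm_ofReal, sq_abs]

omit [FiniteDimensional K V] in
theorem sum_le_of {n : ℕ} (b : OrthonormalBasis (Fin n) K V) (f : Fin n → ℝ) (t : ℝ) (x : V)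
    (h : ∀ i, t < f i → inner K (b i) x = 0) :
    ∑ i, f i * ‖inner K (b i) x‖ ^ 2 ≤ t * ‖x‖ ^ 2 := by
  rw [← b.sum_sq_norm_inner_right x, mul_sum]
  refine sum_le_sum fun i _ => ?_
  by_cases hi : t < f i
  · simp [h i hi]
  · exact mul_le_mul_of_nonneg_right (not_lt.1 hi) (sq_nonneg _)

omit [FiniteDimensional K V] in
theorem le_sum_of {n : ℕ} (b : OrthonormalBasis (Fin n) K V) (f : Fin n → ℝ) (t : ℝ) (x : V)
    (h : ∀ i, f i < t → inner K (b i) x = 0) :
    t * ‖x‖ ^ 2 ≤ ∑ i, f i * ‖inner K (b i) x‖ ^ 2 := by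
  rw [← b.sum_sq_norm_inner_right x, mul_sum]
  refine sum_le_sum fun i _ => ?_
  by_cases hi : f i < t
  · simp [h i hi]
  · exact mul_le_mul_of_nonneg_right (not_lt.1 hi) (sq_nonneg _)

theorem spec3 (S : V →ₗ[K] V) (hS : S.IsSymmetric) {t : ℝ} (ht : 0 ≤ t) :
    ∃ P Z N : Submodule K V, finrank K P + finrank K Z + finrank K N = finrank K V ∧
      (∀ x ∈ P, t * ‖x‖ ^ 2 ≤ re (inner K x (S x))) ∧ (∀ x ∈ Z, ‖S x‖ ≤ t * ‖x‖) ∧
      ∀ x ∈ N, re (inner K x (S x)) ≤ -t * ‖x‖ ^ 2 := by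
  obtain ⟨b, l, h⟩ := spec_base S hS
  obtain ⟨P, dP, hP⟩ := coord_sub b (univ.filter fun i => t < l i)
  obtain ⟨Z, dZ, hZ⟩ := coord_sub b ((univ.filter fun i => ¬ t < l i).filter fun i => -t ≤ l i)
  obtain ⟨N, dN, hN⟩ := coord_sub b ((univ.filter fun i => ¬ t < l i).filter fun i => ¬ -t ≤ l i)
  refine ⟨P, Z, N, ?_, fun x hx => ?_, fun x hx => ?_, fun x hx => ?_⟩
  · rw [dP, dZ, dN, add_assoc, card_filter_add_card_filter_not, card_filter_add_card_filter_not]
    simp
  · rw [(h x).1]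
    exact le_sum_of b l t x fun i hi => hP x hx i (by simpa using hi.le)
  · have h1 : ‖S x‖ ^ 2 ≤ (t * ‖x‖) ^ 2 := by
      rw [(h x).2, mul_pow]
      refine sum_le_of b (fun i => l i ^ 2) (t ^ 2) x fun i hi => hZ x hx i fun hm => ?_
      simp only [mem_filter, mem_univ, true_and, not_lt] at hm
      exact absurd (sq_le_sq' hm.2 hm.1) (not_le.2 hi)
    exact le_of_sq_le_sq h1 (mul_nonneg ht (norm_nonneg _))
  · rw [(h x).1]
    refine sum_le_of b l (-t) x fun i hi => hN x hx i fun hm => ?_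
    simp only [mem_filter, mem_univ, true_and, not_lt, not_le] at hm
    exact absurd hi (not_lt.2 hm.2.le)

theorem sign2 (T : V →ₗ[K] V) (a : ℝ) :
    ∃ P N : Submodule K V, finrank K P + finrank K N = finrank K V ∧
      (∀ x ∈ P, a * ‖x‖ ^ 2 ≤ re (inner K x (T x))) ∧
      ∀ x ∈ N, re (inner K x (T x)) ≤ a * ‖x‖ ^ 2 := by
  have hS : (T + LinearMap.adjoint T).IsSymmetric := by
    intro x y
    simp only [LinearMap.add_apply, inner_add_left, inner_add_right,
      LinearMap.adjoint_inner_left, LinearMap.adjoint_inner_right]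
    ring
  have hq : ∀ x, re (inner K x ((T + LinearMap.adjoint T) x)) = 2 * re (inner K x (T x)) := by
    intro x
    rw [LinearMap.add_apply, inner_add_right, LinearMap.adjoint_inner_right, map_add,
      inner_re_symm (T x) x, two_mul]
  obtain ⟨b, l, h⟩ := spec_base _ hS
  obtain ⟨P, dP, hP⟩ := coord_sub b (univ.filter fun i => 2 * a < l i)
  obtain ⟨N, dN, hN⟩ := coord_sub b (univ.filter fun i => ¬ 2 * a < l i)
  refine ⟨P, N, ?_, fun x hx => ?_, fun x hx => ?_⟩
  · rw [dP, dN, card_filter_add_card_filter_not]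
    simp
  · have := le_sum_of b l (2 * a) x fun i hi => hP x hx i (by simpa using hi.le)
    rw [← (h x).1, hq] at this
    linarith
  · have := sum_le_of b l (2 * a) x fun i hi => hN x hx i (by simpa using hi)
    rw [← (h x).1, hq] at this
    linarith

end Pool.Agent.P.MP_f511bc_an.Nb
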