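import Pool.Agent.P.MP_f511bc_an.Nb.Spec

/-! A spread numerical range gives a mixing operator. -/

open Finset Module RCLike

namespace Pool.Agent.P.MP_f511bc_an.Nb

variable {K V : Type*} [RCLike K] [NormedAddCommGroup V] [InnerProductSpace K V]
  [FiniteDimensional K V]

theorem exists_on (G : Submodule K V) {m : ℕ} (h : m ≤ finrank K G) :
    ∃ p : Fin m → V, Orthonormal K p ∧ ∀ i, p i ∈ G :=
  ⟨fun i => (stdOrthonormalBasis K G (Fin.castLE h i) : V),
    ((stdOrthonormalBasis K G).orthonormal.comp _ (Fin.castLE_injective h)).comp_linearIsometry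
      G.subtypeₗᵢ, fun i => (stdOrthonormalBasis K G (Fin.castLE h i)).2⟩

omit [FiniteDimensional K V] in
theorem mix_of (T : V →ₗ[K] V) {k : ℕ} (p r : Fin k → V) (hp : Orthonormal K p)
    (hr : Orthonormal K r) (ho : ∀ a b, inner K (p a) (r b) = 0)
    (h : ∀ (c : Fin k → ℝ) (x y : V), x = ∑ a, (c a : K) • p a → y = ∑ a, (c a : K) • r a →
      (1 / 5) * ∑ a, c a ^ 2 ≤ re (inner K x (T x)) - re (inner K y (T y)) +
        (re (inner K x (T y)) - re (inner K y (T x)))) : Mix k T := by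
  classical
  obtain ⟨s, hs⟩ : ∃ s : ℝ, s * s = 1 / 2 := ⟨√(1 / 2), Real.mul_self_sqrt (by norm_num)⟩
  have hs' : (s : K) * (s : K) = 1 / 2 := by
    rw [← ofReal_mul, hs]
    push_cast
    rfl
  have ho' : ∀ a b, inner K (r a) (p b) = 0 := fun a b => inner_eq_zero_symm.1 (ho b a)
  rw [orthonormal_iff_ite] at hp hr
  have sc : ∀ x y : V, inner K ((s : K) • x) ((s : K) • y) = 1 / 2 * inner K x y := fun x y => by
    rw [inner_smul_left, inner_smul_right, conj_ofReal, ← mul_assoc, hs']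
  refine ⟨fun a => (s : K) • (p a - r a), fun a => (s : K) • (p a + r a), ?_, ?_, ?_, ?_⟩
  · refine orthonormal_iff_ite.2 fun a b => ?_
    rw [sc, inner_sub_left, inner_sub_right, inner_sub_right, hp, hr, ho, ho']
    ring
  · refine orthonormal_iff_ite.2 fun a b => ?_
    rw [sc, inner_add_left, inner_add_right, inner_add_right, hp, hr, ho, ho']
    ring
  · intro a b
    rw [sc, inner_sub_left, inner_add_right, inner_add_right, hp, hr, ho, ho']
    ring
  · intro c
    have e1 : ∑ a, (c a : K) • (s : K) • (p a - r a) =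
        (s : K) • (∑ a, (c a : K) • p a - ∑ a, (c a : K) • r a) := by
      rw [← sum_sub_distrib, smul_sum]
      exact sum_congr rfl fun a _ => by rw [smul_comm, smul_sub (c a : K)]
    have e2 : ∑ a, (c a : K) • (s : K) • (p a + r a) =
        (s : K) • (∑ a, (c a : K) • p a + ∑ a, (c a : K) • r a) := by
      rw [← sum_add_distrib, smul_sum]
      exact sum_congr rfl fun a _ => by rw [smul_comm, smul_add (c a : K)]
    have h1 := h c _ _ rfl rfl
    rw [e1, e2, map_smul, sc, ← hs', ← ofReal_mul, re_ofReal_mul, hs, map_add, inner_sub_left,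
      inner_add_right, inner_add_right, map_sub, map_add, map_add]
    linarith

omit [FiniteDimensional K V] in
theorem cmb_inner {m : ℕ} {p : Fin m → V} (hp : Orthonormal K p)
    (c d : EuclideanSpace ℝ (Fin m)) :
    inner K (∑ i, (c i : K) • p i) (∑ i, (d i : K) • p i) = ((inner ℝ c d : ℝ) : K) := by
  rw [hp.inner_sum, PiLp.inner_apply, ofReal_sum]
  exact sum_congr rfl fun i _ => by
    rw [conj_ofReal, ← ofReal_mul, real_inner_comm]
    rfl

omit [FiniteDimensional K V] in
theorem cmb_sum {m k : ℕ} (p : Fin m → V) (f : Fin k → EuclideanSpace ℝ (Fin m))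
    (c : Fin k → ℝ) : ∑ a, (c a : K) • ∑ i, (f a i : K) • p i =
      ∑ i, (((∑ a, c a • f a : EuclideanSpace ℝ (Fin m)) i : ℝ) : K) • p i := by
  simp only [smul_sum, smul_smul]
  rw [sum_comm]
  refine sum_congr rfl fun i _ => ?_
  rw [← sum_smul]
  congr 1
  simp

omit [FiniteDimensional K V] in
theorem spread_aux (T : V →ₗ[K] V) {k m : ℕ} (G1 G2 : Submodule K V) {a b : ℝ}
    (hab : b + 1 / 5 ≤ a) (q1 : ∀ x ∈ G1, a * ‖x‖ ^ 2 ≤ re (inner K x (T x)))
    (q2 : ∀ x ∈ G2, re (inner K x (T x)) ≤ b * ‖x‖ ^ 2) (p r : Fin m → V)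
    (hp : Orthonormal K p) (hr : Orthonormal K r) (ho : ∀ i j, inner K (p i) (r j) = 0)
    (mp : ∀ i, p i ∈ G1) (mr : ∀ i, r i ∈ G2) (P : Submodule ℝ (EuclideanSpace ℝ (Fin m)))
    (hP : k ≤ finrank ℝ P)
    (h : ∀ c ∈ P, re (inner K (∑ i, (c i : K) • r i) (T (∑ i, (c i : K) • p i))) ≤
      re (inner K (∑ i, (c i : K) • p i) (T (∑ i, (c i : K) • r i)))) : Mix k T := by
  classical
  obtain ⟨f, hf, mf⟩ := exists_on P hP
  have on : ∀ {v : Fin m → V}, Orthonormal K v → Orthonormal K fun a => ∑ i, (f a i : K) • v i :=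
    fun hv => orthonormal_iff_ite.2 fun a b => by
      rw [cmb_inner hv, orthonormal_iff_ite.1 hf]
      split_ifs <;> simp
  have nm : ∀ {v : Fin k → V}, Orthonormal K v → ∀ c : Fin k → ℝ,
      ‖∑ a, (c a : K) • v a‖ ^ 2 = ∑ a, c a ^ 2 := fun hv c => by
    rw [← inner_self_eq_norm_sq (𝕜 := K), hv.inner_sum, map_sum]
    exact sum_congr rfl fun i _ => by rw [conj_ofReal, ← ofReal_mul, ofReal_re, sq]
  refine mix_of T _ _ (on hp) (on hr) (fun a b => ?_) fun c x y hx hy => ?_
  · simp only [sum_inner, inner_sum, inner_smul_left, inner_smul_right, ho, mul_zero,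
      sum_const_zero]
  have n1 := nm (on hp) c
  have n2 := nm (on hr) c
  rw [← hx] at n1
  rw [← hy] at n2
  rw [cmb_sum] at hx hy
  have h1 := h _ (P.sum_mem (t := univ) fun a _ => P.smul_mem (c a) (mf a))
  rw [← hx, ← hy] at h1
  have h2 := q1 x (hx ▸ G1.sum_mem fun i _ => G1.smul_mem _ (mp i))
  have h3 := q2 y (hy ▸ G2.sum_mem fun i _ => G2.smul_mem _ (mr i))
  rw [n1] at h2
  rw [n2] at h3
  have h4 : 0 ≤ ∑ a, c a ^ 2 := sum_nonneg fun a _ => sq_nonneg _
  nlinarith [mul_le_mul_of_nonneg_right hab h4]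

theorem spread (T : V →ₗ[K] V) {k : ℕ} (G1 G2 : Submodule K V) (h1 : 4 * k ≤ finrank K G1)
    (h2 : 4 * k ≤ finrank K G2) {a b : ℝ} (hab : b + 1 / 5 ≤ a)
    (q1 : ∀ x ∈ G1, a * ‖x‖ ^ 2 ≤ re (inner K x (T x)))
    (q2 : ∀ x ∈ G2, re (inner K x (T x)) ≤ b * ‖x‖ ^ 2) : Mix k T := by
  obtain ⟨p, hp, mp⟩ := exists_on G1 (m := 2 * k) (by omega)
  have d1 : finrank K (Submodule.span K (Set.range p)) = 2 * k := by
    rw [finrank_span_eq_card hp.linearIndependent, Fintype.card_fin]
  have d2 := (Submodule.span K (Set.range p)).finrank_add_finrank_orthogonal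
  have d3 := Submodule.finrank_sup_add_finrank_inf_eq G2 (Submodule.span K (Set.range p))ᗮ
  have d4 := Submodule.finrank_le (G2 ⊔ (Submodule.span K (Set.range p))ᗮ)
  obtain ⟨r, hr, mr⟩ := exists_on (G2 ⊓ (Submodule.span K (Set.range p))ᗮ) (m := 2 * k)
    (by omega)
  have ho : ∀ i j, inner K (p i) (r j) = 0 := fun i j =>
    (mr j).2 _ (Submodule.subset_span ⟨i, rfl⟩)
  let M : Matrix (Fin (2 * k)) (Fin (2 * k)) ℝ := fun i j =>
    re (inner K (p i) (T (r j))) - re (inner K (r i) (T (p j)))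
  have hM : ∀ c : EuclideanSpace ℝ (Fin (2 * k)), re (inner ℝ c (Matrix.toEuclideanLin M c)) =
      re (inner K (∑ i, (c i : K) • p i) (T (∑ i, (c i : K) • r i))) -
        re (inner K (∑ i, (c i : K) • r i) (T (∑ i, (c i : K) • p i))) := fun c => by
    have e : ∀ i, Matrix.toEuclideanLin M c i = ∑ j, M i j * c j := fun i => rfl
    simp only [sum_inner, map_sum, inner_smul_left, conj_ofReal, re_ofReal_mul, PiLp.inner_apply,
      re_to_real, e]
    simp only [inner_sum, map_smul, inner_smul_right, map_sum, re_ofReal_mul]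
    rw [← sum_sub_distrib]
    refine sum_congr rfl fun i _ => ?_
    rw [← mul_sub, ← sum_sub_distrib, mul_sum]
    refine sum_congr rfl fun j _ => ?_
    simp only [M, RCLike.inner_apply, conj_trivial]
    ring
  obtain ⟨P, N, hd, hP, hN⟩ := sign2 (Matrix.toEuclideanLin M) 0
  rw [finrank_euclideanSpace_fin] at hd
  rcases le_or_gt k (finrank ℝ P) with h | h
  · refine spread_aux T G1 G2 hab q1 q2 p r hp hr ho mp (fun i => (mr i).1) P h fun c hc => ?_
    have := hP c hc
    rw [hM, zero_mul] at this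
    linarith
  · refine spread_aux T G1 G2 hab q1 q2 p (fun i => -r i) hp
      ⟨fun i => (norm_neg _).trans (hr.1 i), fun i j hij => (inner_neg_neg _ _).trans (hr.2 hij)⟩
      (fun i j => by rw [inner_neg_right, ho, neg_zero]) mp (fun i => G2.neg_mem (mr i).1) N
      (by omega) fun c hc => ?_
    have := hN c hc
    rw [hM, zero_mul] at this
    simp only [smul_neg, sum_neg_distrib, map_neg, inner_neg_left, inner_neg_right]
    linarith

end Pool.Agent.P.MP_f511bc_an.Nb
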