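import Pool.Agent.P.MP_f511bc_an.DefsB

/-! An `l2` sum of finite-dimensional spaces has a basis with brackets. -/

open Finset Module Filter Topology

namespace Pool.Agent.P.MP_f511bc_an.Nb

theorem sa_block (d : ℕ → ℕ) (h : ∀ i, 1 ≤ d i) :
    ∃ β : ℕ → ℕ, (∀ n, ∑ i ∈ range (β n), d i ≤ n ∧ n < ∑ i ∈ range (β n + 1), d i) ∧
      ∀ k x, x < d k → β (∑ i ∈ range k, d i + x) = k := by
  classical
  have hmono : Monotone fun k => ∑ i ∈ range k, d i :=
    monotone_nat_of_le_succ fun k => by rw [sum_range_succ]; exact Nat.le_add_right _ _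
  have hge : ∀ k, k ≤ ∑ i ∈ range k, d i := fun k => by
    induction k with
    | zero => simp
    | succ k ih => rw [sum_range_succ]; have := h k; omega
  have hex : ∀ n, ∃ k, n < ∑ i ∈ range (k + 1), d i := fun n => ⟨n, hge (n + 1)⟩
  have h1 : ∀ n, ∑ i ∈ range (Nat.find (hex n)), d i ≤ n := fun n => by
    rcases hk : Nat.find (hex n) with _ | k
    · simp
    · exact not_lt.1 (Nat.find_min (hex n) (by omega : k < Nat.find (hex n)))
  refine ⟨fun n => Nat.find (hex n), fun n => ⟨h1 n, Nat.find_spec (hex n)⟩, fun k x hx => ?_⟩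
  refine (Nat.find_eq_iff _).2 ⟨by rw [sum_range_succ]; omega, fun m hm => ?_⟩
  have := hmono (show m + 1 ≤ k by omega)
  simp only at this
  omega

theorem bracket {K : Type*} [RCLike K] (X : ℕ → Type*) [∀ i, NormedAddCommGroup (X i)]
    [∀ i, NormedSpace K (X i)] [∀ i, FiniteDimensional K (X i)]
    (h : ∀ i, 1 ≤ finrank K (X i)) : ∃ y : ℕ → lp X 2, IsBracketBasis K y := by
  classical
  obtain ⟨β, hβ, hβk⟩ := sa_block (fun i => finrank K (X i)) h
  set s : ℕ → ℕ := fun k => ∑ i ∈ range k, finrank K (X i) with hs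
  have hsucc : ∀ k, s (k + 1) = s k + finrank K (X k) := fun k => sum_range_succ _ _
  let b : ∀ i, Basis (Fin (finrank K (X i))) K (X i) := fun i => finBasis K (X i)
  let b' : ∀ i, ℕ → X i := fun i j => if hj : j < finrank K (X i) then b i ⟨j, hj⟩ else 0
  let y : ℕ → lp X 2 := fun n => lp.single 2 (β n) (b' (β n) (n - s (β n)))
  have hy0 : ∀ n k, β n = k → y n = lp.single 2 k (b' k (n - s k)) := fun n k e => by
    subst e; rfl
  have hy : ∀ k (j : Fin (finrank K (X k))), y (s k + j) = lp.single 2 k (b k j) := fun k j => by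
    rw [hy0 _ k (hβk k j j.2), Nat.add_sub_cancel_left]
    simp [b']
  let w : (ℕ → K) → ∀ i, X i := fun α i => ∑ j : Fin (finrank K (X i)), α (s i + j) • b i j
  have hsum : ∀ (α : ℕ → K) (k : ℕ), ∑ n ∈ range (s k), α n • y n =
      ∑ i ∈ range k, (lp.single 2 i (w α i) : lp X 2) := fun α k => by
    induction k with
    | zero => simp [hs]
    | succ k ih =>
      rw [hsucc, sum_range_add, ih, sum_range_succ]
      refine congrArg _ ?_
      have : (lp.single 2 k (w α k) : lp X 2) = lp.lsingle (𝕜 := K) 2 k (w α k) := rfl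
      rw [this, sum_range]
      simp only [w]
      rw [map_sum (lp.lsingle (𝕜 := K) (E := X) 2 k)]
      refine sum_congr rfl fun j _ => ?_
      rw [hy, map_smul]
      rfl
  have hN : ∀ k, s (k + 1) - 1 + 1 = s (k + 1) := fun k => by
    have := h k
    rw [hsucc]
    omega
  have hw : ∀ (α : ℕ → K) (v : lp X 2),
      Tendsto (fun k => ∑ i ∈ range (s (k + 1) - 1 + 1), α i • y i) atTop (𝓝 v) →
      ∀ i, w α i = v i := fun α v hv i => by
    have h1 := ((lp.evalCLM K X 2 i).continuous.tendsto v).comp hv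
    have h2 : (fun _ : ℕ => w α i) =ᶠ[atTop] (lp.evalCLM K X 2 i) ∘
        fun k => ∑ i ∈ range (s (k + 1) - 1 + 1), α i • y i := by
      filter_upwards [eventually_ge_atTop i] with k hk
      rw [Function.comp_apply, hN, hsum, map_sum, sum_eq_single i]
      · exact (lp.single_apply_self 2 i (w α i)).symm
      · exact fun l _ hl => lp.single_apply_ne 2 l (w α l) hl.symm
      · exact fun hi => absurd (mem_range.2 (by omega)) hi
    exact tendsto_nhds_unique_of_eventuallyEq tendsto_const_nhds h1 h2
  have hrep : ∀ (α : ℕ → K) i (j : Fin (finrank K (X i))),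
      (b i).repr (w α i) j = α (s i + j) := fun α i j =>
    congrFun ((b i).repr_sum_self fun j => α (s i + j)) j
  refine ⟨y, fun k => s (k + 1) - 1, strictMono_nat_of_lt_succ fun k => ?_, fun v => ?_⟩
  · have h1 := hN k
    have h2 := hsucc (k + 1)
    have h3 := h (k + 1)
    omega
  · let c : ℕ → ℕ → K := fun i j =>
      if hj : j < finrank K (X i) then (b i).repr (v i) ⟨j, hj⟩ else 0
    let α : ℕ → K := fun n => c (β n) (n - s (β n))
    have hα : ∀ i (j : Fin (finrank K (X i))), α (s i + j) = (b i).repr (v i) j := fun i j => by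
      have e : β (s i + j) = i := hβk i j j.2
      have : α (s i + j) = c i (s i + j - s i) := by simp only [α, e]
      rw [this, Nat.add_sub_cancel_left]
      simp [c]
    have hwα : ∀ i, w α i = v i := fun i => by
      simp only [w, hα]
      exact (b i).sum_repr (v i)
    refine ⟨α, ?_, fun α' hα' => funext fun n => ?_⟩
    · have h1 := (lp.hasSum_single (by norm_num) v).tendsto_sum_nat
      refine (h1.comp (tendsto_add_atTop_nat 1)).congr fun k => ?_
      simp only [Function.comp_apply, hN, hsum, hwα]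
    · have h1 : s (β n) ≤ n := (hβ n).1
      have h2 : n < s (β n + 1) := (hβ n).2
      rw [hsucc] at h2
      have h3 : n - s (β n) < finrank K (X (β n)) := by omega
      have h4 : n = s (β n) + ((⟨n - s (β n), h3⟩ : Fin _) : ℕ) := by
        simp only
        omega
      rw [h4, hα, ← hrep α', hw α' v hα']

end Pool.Agent.P.MP_f511bc_an.Nb
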